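import Mathlib

set_option autoImplicit false
open Set Filter Topology Function

namespace Pool.Agent.H.MP_0d212c

variable {ι : Type}

noncomputable def gg (t : ℝ) : ℝ := t * (1 - t / 4)

noncomputable def val (s : Finset ι) (l a b : ι → ℝ) : ℝ := ∑ j ∈ s, (l j * a j + gg (l j) * b j)

def Prob (s : Finset ι) (l : ι → ℝ) : Prop := (∀ j ∈ s, 0 ≤ l j) ∧ ∑ j ∈ s, l j = 1

noncomputable def SS (J : Set ι) (a b : ι → ℝ) : ℝ :=
  sSup {v | ∃ (s : Finset ι) (l : ι → ℝ), ↑s ⊆ J ∧ Prob s l ∧ v = val s l a b}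

theorem Prob.le_one {s : Finset ι} {l : ι → ℝ} (h : Prob s l) {j : ι} (hj : j ∈ s) : l j ≤ 1 :=
  (Finset.single_le_sum h.1 hj).trans_eq h.2

theorem val_le {s : Finset ι} {l a b : ι → ℝ} (h : Prob s l) {R : ℝ}
    (hR : ∀ j ∈ s, ∀ γ ∈ Icc (0 : ℝ) 1, a j + γ * b j ≤ R) : val s l a b ≤ R := by
  refine (Finset.sum_le_sum (g := fun j => l j * R) fun j hj => ?_).trans_eq ?_
  · have := mul_le_mul_of_nonneg_left (hR j hj (1 - l j / 4)
      ⟨by linarith [h.le_one hj], by linarith [h.1 j hj]⟩) (h.1 j hj)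
    unfold gg
    linarith
  · rw [← Finset.sum_mul, h.2, one_mul]

theorem val_sub (s : Finset ι) (l a b a' b' : ι → ℝ) :
    val s l a b - val s l a' b' = val s l (fun j => a j - a' j) fun j => b j - b' j := by
  unfold val
  rw [← Finset.sum_sub_distrib]
  exact Finset.sum_congr rfl fun j _ => by ring

theorem le_SS {J : Set ι} {a b : ι → ℝ} {R : ℝ}
    (hR : ∀ j ∈ J, ∀ γ ∈ Icc (0 : ℝ) 1, a j + γ * b j ≤ R) {s : Finset ι} {l : ι → ℝ}
    (hs : ↑s ⊆ J) (h : Prob s l) : val s l a b ≤ SS J a b :=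
  le_csSup ⟨R, by
    rintro _ ⟨s, l, h1, h2, rfl⟩
    exact val_le h2 fun j hj => hR j (h1 hj)⟩ ⟨s, l, hs, h, rfl⟩

theorem prob_single (j : ι) : Prob {j} fun _ => 1 := ⟨fun _ _ => zero_le_one, by simp⟩

theorem SS_le {J : Set ι} {a b : ι → ℝ} {R : ℝ} (hJ : J.Nonempty)
    (h : ∀ (s : Finset ι) l, ↑s ⊆ J → Prob s l → val s l a b ≤ R) : SS J a b ≤ R := by
  obtain ⟨j, hj⟩ := hJ
  refine csSup_le ⟨_, {j}, _, by simpa using hj, prob_single j, rfl⟩ ?_
  rintro _ ⟨s, l, h1, h2, rfl⟩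
  exact h s l h1 h2

theorem single_le_SS {J : Set ι} {a b : ι → ℝ} {R : ℝ}
    (hR : ∀ j ∈ J, ∀ γ ∈ Icc (0 : ℝ) 1, a j + γ * b j ≤ R) {j : ι} (hj : j ∈ J) :
    a j + 3 / 4 * b j ≤ SS J a b := by
  refine le_of_eq_of_le ?_ (le_SS hR (s := {j}) (by simpa using hj) (prob_single j))
  simp only [val, gg, Finset.sum_singleton]
  ring

theorem SS_sub {J : Set ι} {a b a' b' : ι → ℝ} {R T : ℝ} (hJ : J.Nonempty)
    (hR : ∀ j ∈ J, ∀ γ ∈ Icc (0 : ℝ) 1, a' j + γ * b' j ≤ R)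
    (h : ∀ j ∈ J, ∀ γ ∈ Icc (0 : ℝ) 1, a j - a' j + γ * (b j - b' j) ≤ T) :
    SS J a b ≤ SS J a' b' + T := by
  refine SS_le hJ fun s l h1 h2 => ?_
  have a1 := le_SS hR h1 h2
  have a2 := val_le h2 fun j hj => h j (h1 hj)
  rw [← val_sub] at a2
  linarith

def Opt (F : Finset ι) (l a b : ι → ℝ) : Prop :=
  Prob F l ∧ ∀ μ, Prob F μ → val F μ a b ≤ val F l a b

theorem exists_opt {F : Finset ι} (hF : F.Nonempty) (a b : ι → ℝ) : ∃ l, Opt F l a b := by
  classical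
  have hc : IsCompact {l : ι → ℝ | l ∈ univ.pi (fun _ => Icc (0 : ℝ) 1) ∧ ∑ j ∈ F, l j = 1} :=
    (isCompact_univ_pi fun _ => isCompact_Icc).inter_right
      (isClosed_eq (by fun_prop) continuous_const)
  have tr : ∀ μ, Prob F μ → (fun j => if j ∈ F then μ j else 0) ∈
      {l : ι → ℝ | l ∈ univ.pi (fun _ => Icc (0 : ℝ) 1) ∧ ∑ j ∈ F, l j = 1} := fun μ hμ =>
    ⟨fun j _ => by
      by_cases e : j ∈ F
      · simpa [e] using ⟨hμ.1 j e, hμ.le_one e⟩
      · simp [e], (Finset.sum_congr rfl fun j hj => if_pos hj).trans hμ.2⟩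
  obtain ⟨j0, h0⟩ := hF
  obtain ⟨l, h1, h2⟩ := hc.exists_isMaxOn ⟨_, tr (fun j => if j = j0 then 1 else 0)
    ⟨fun j _ => by positivity, by simp [h0]⟩⟩ (f := fun l => val F l a b)
    (Continuous.continuousOn (by unfold val gg; fun_prop))
  refine ⟨l, ⟨fun j _ => (h1.1 j trivial).1, h1.2⟩, fun μ hμ => le_of_eq_of_le ?_ (h2 (tr μ hμ))⟩
  exact Finset.sum_congr rfl fun j hj => by simp only [if_pos hj]

theorem Opt.strong {F : Finset ι} {l μ a b : ι → ℝ} (h : Opt F l a b) (hμ : Prob F μ) {η : ℝ}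
    (h0 : 0 ≤ η) (hb : ∀ j ∈ F, η ≤ b j) {j : ι} (hj : j ∈ F) :
    η * (l j - μ j) ^ 2 ≤ 8 * (val F l a b - val F μ a b) := by
  have a1 := h.2 (fun j => (l j + μ j) / 2) ⟨fun j hj => by linarith [h.1.1 j hj, hμ.1 j hj], by
    rw [← Finset.sum_div, Finset.sum_add_distrib, h.1.2, hμ.2]; norm_num⟩
  have a2 : val F (fun j => (l j + μ j) / 2) a b = (val F l a b + val F μ a b) / 2 +
      (∑ j ∈ F, b j * (l j - μ j) ^ 2) / 16 := by
    unfold val gg
    rw [← Finset.sum_add_distrib, Finset.sum_div, Finset.sum_div, ← Finset.sum_add_distrib]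
    exact Finset.sum_congr rfl fun j _ => by ring
  have a3 := Finset.single_le_sum (f := fun j => b j * (l j - μ j) ^ 2)
    (fun j hj => mul_nonneg (h0.trans (hb j hj)) (sq_nonneg _)) hj
  have a4 := mul_le_mul_of_nonneg_right (hb j hj) (sq_nonneg (l j - μ j))
  linarith

theorem Opt.eq_SS {J : Set ι} {F : Finset ι} {l a b : ι → ℝ} (h : Opt F l a b) (hF : ↑F ⊆ J)
    {j0 : ι} (h0 : j0 ∈ F) (hb : ∀ j ∈ J, 0 ≤ b j)
    (hl : ∀ j ∈ J, j ∉ F → a j + b j ≤ a j0 + b j0 / 2) : SS J a b = val F l a b := by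
  classical
  have key : ∀ (s : Finset ι) μ, ↑s ⊆ J → Prob s μ → val s μ a b ≤ val F l a b := by
    intro s μ h1 h2
    obtain ⟨r, hr⟩ : ∃ r, r = ∑ j ∈ s \ F, μ j := ⟨_, rfl⟩
    obtain ⟨ν, hν⟩ : ∃ ν : ι → ℝ, ∀ j, ν j = if j ∈ s then μ j else 0 := ⟨_, fun _ => rfl⟩
    have r0 : 0 ≤ r := hr ▸ Finset.sum_nonneg fun j hj => h2.1 j (Finset.mem_sdiff.1 hj).1
    have n0 : ∀ j, 0 ≤ ν j := fun j => by
      rw [hν]
      split_ifs with e
      exacts [h2.1 j e, le_rfl]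
    have sm : ∀ φ : ι → ℝ → ℝ, (∀ j, φ j 0 = 0) →
        ∑ j ∈ F, φ j (ν j) = ∑ j ∈ s ∩ F, φ j (μ j) := fun φ hφ => by
      rw [Finset.inter_comm, ← Finset.sum_ite_mem]
      exact Finset.sum_congr rfl fun j _ => by rw [hν]; split_ifs <;> simp [hφ]
    have s1 : ∑ j ∈ F, ν j + r = 1 := by
      rw [sm (fun _ t => t) fun _ => rfl, hr, Finset.sum_inter_add_sum_sdiff, h2.2]
    have n1 : ν j0 + r ≤ 1 := by
      linarith [Finset.single_le_sum (fun j _ => n0 j) h0]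
    refine le_trans ?_ (h.2 (fun j => ν j + if j = j0 then r else 0)
      ⟨fun j _ => add_nonneg (n0 j) (by positivity), by
        rw [Finset.sum_add_distrib, Finset.sum_ite_eq', if_pos h0, s1]⟩)
    have e1 : val s μ a b ≤ val F ν a b + r * (a j0 + b j0 / 2) := by
      unfold val
      rw [sm (fun j t => t * a j + gg t * b j) fun j => by simp [gg],
        ← Finset.sum_inter_add_sum_sdiff s F, hr, Finset.sum_mul]
      refine add_le_add le_rfl (Finset.sum_le_sum fun j hj => ?_)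
      obtain ⟨j1, j2⟩ := Finset.mem_sdiff.1 hj
      have := mul_le_mul_of_nonneg_left (hl j (h1 j1) j2) (h2.1 j j1)
      have := mul_nonneg (mul_self_nonneg (μ j)) (hb j (h1 j1))
      unfold gg
      nlinarith
    refine e1.trans ?_
    unfold val
    have e2 : ∑ j ∈ F.erase j0, ((ν j + if j = j0 then r else 0) * a j +
        gg (ν j + if j = j0 then r else 0) * b j) =
        ∑ j ∈ F.erase j0, (ν j * a j + gg (ν j) * b j) := Finset.sum_congr rfl fun j hj => by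
      rw [if_neg (Finset.ne_of_mem_erase hj), add_zero]
    simp only
    rw [← Finset.add_sum_erase F _ h0, ← Finset.add_sum_erase F _ h0, if_pos rfl, e2]
    have := mul_nonneg (mul_nonneg r0 (hb j0 (hF h0)))
      (show 0 ≤ 2 - 2 * ν j0 - r by linarith [n0 j0])
    unfold gg
    nlinarith
  exact le_antisymm (SS_le ⟨j0, hF h0⟩ key) (le_csSup ⟨_, by
    rintro _ ⟨s, μ, h1, h2, rfl⟩
    exact key s μ h1 h2⟩ ⟨F, l, hF, h.1, rfl⟩)

theorem fin_sep {α : Type} {G : Set α} (φ : α → ℝ) {R θ : ℝ} (hθ : 0 < θ)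
    (hb : ∀ p ∈ G, |φ p| ≤ R) (hs : ∀ p ∈ G, ∀ q ∈ G, p ≠ q → θ < |φ p - φ q|) : G.Finite := by
  refine Finite.of_finite_image (f := fun p => ⌊φ p / θ⌋)
    ((finite_Icc ⌊-R / θ⌋ ⌊R / θ⌋).subset ?_) fun p hp q hq e => ?_
  · rintro _ ⟨p, hp, rfl⟩
    exact ⟨Int.floor_mono (div_le_div_of_nonneg_right (abs_le.1 (hb p hp)).1 hθ.le),
      Int.floor_mono (div_le_div_of_nonneg_right (abs_le.1 (hb p hp)).2 hθ.le)⟩
  · by_contra h
    have a1 := Int.abs_sub_lt_one_of_floor_eq_floor e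
    rw [← sub_div, abs_div, abs_of_pos hθ, div_lt_one hθ] at a1
    linarith [hs p hp q hq h]

theorem st_lip : ∃ K : ℝ, 1 ≤ K ∧ (∀ t, |deriv Real.smoothTransition t| ≤ K) ∧
    ∀ s t, |Real.smoothTransition s - Real.smoothTransition t| ≤ K * |s - t| := by
  have hc : ContDiff ℝ 1 Real.smoothTransition := Real.smoothTransition.contDiff
  obtain ⟨C, hC⟩ := (isCompact_Icc (a := (0 : ℝ)) (b := 1)).exists_bound_of_continuousOn
    (hc.continuous_deriv le_rfl).continuousOn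
  have h1 : ∀ t, |deriv Real.smoothTransition t| ≤ max C 1 := fun t => by
    by_cases h : t ∈ Icc (0 : ℝ) 1
    · exact (hC t h).trans (le_max_left _ _)
    · have : deriv Real.smoothTransition t = 0 := by
        rcases not_and_or.1 h with e | e
        · rw [Filter.EventuallyEq.deriv_eq (f := fun _ => 0)]
          · simp
          · filter_upwards [Iio_mem_nhds (not_le.1 e)] with s hs
            exact Real.smoothTransition.zero_of_nonpos (le_of_lt hs)
        · rw [Filter.EventuallyEq.deriv_eq (f := fun _ => 1)]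
          · simp
          · filter_upwards [Ioi_mem_nhds (not_le.1 e)] with s hs
            exact Real.smoothTransition.one_of_one_le (le_of_lt hs)
      rw [this, abs_zero]
      positivity
  refine ⟨max C 1, le_max_right _ _, h1, fun s t => ?_⟩
  exact Convex.norm_image_sub_le_of_norm_deriv_le (s := univ)
    (fun x _ => hc.differentiable one_ne_zero x) (fun x _ => h1 x) convex_univ trivial trivial

end Pool.Agent.H.MP_0d212c
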