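import Pool.Agent.H.MP_0d212c.A

set_option autoImplicit false
open Set Filter Topology Function

namespace Pool.Agent.H.MP_0d212c

variable {ι : Type}

theorem val_neg (s : Finset ι) (l a b : ι → ℝ) :
    val s l (fun j => -a j) (fun j => -b j) = -val s l a b := by
  unfold val
  rw [← Finset.sum_neg_distrib]
  exact Finset.sum_congr rfl fun j _ => by ring

theorem val_abs {s : Finset ι} {l a b : ι → ℝ} (h : Prob s l) {p q : ℝ}
    (ha : ∀ j ∈ s, |a j| ≤ p) (hb : ∀ j ∈ s, |b j| ≤ q) : |val s l a b| ≤ p + q := by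
  have k : ∀ j ∈ s, ∀ γ ∈ Icc (0 : ℝ) 1, |γ * b j| ≤ q := fun j hj γ hγ => by
    rw [abs_mul, abs_of_nonneg hγ.1]
    exact (mul_le_of_le_one_left (abs_nonneg _) hγ.2).trans (hb j hj)
  refine abs_le.2 ⟨?_, val_le h fun j hj γ hγ => by
    linarith [(abs_le.1 (ha j hj)).2, (abs_le.1 (k j hj γ hγ)).2]⟩
  have := val_le (a := fun j => -a j) (b := fun j => -b j) (R := p + q) h fun j hj γ hγ => by
    linarith [(abs_le.1 (ha j hj)).1, (abs_le.1 (k j hj γ hγ)).1]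
  rw [val_neg] at this
  linarith

theorem val_near {F : Finset ι} {l μ a b : ι → ℝ} (hl : Prob F l) (hμ : Prob F μ) {κ t : ℝ}
    (h : ∀ j ∈ F, |μ j - l j| ≤ κ) (ha : ∀ j ∈ F, |a j| ≤ t) (hb : ∀ j ∈ F, |b j| ≤ t) :
    |val F μ a b - val F l a b| ≤ F.card * (2 * κ * t) := by
  unfold val
  rw [← Finset.sum_sub_distrib, ← nsmul_eq_mul]
  refine (Finset.abs_sum_le_sum_abs _ _).trans (Finset.sum_le_card_nsmul _ _ _ fun j hj => ?_)
  have e : μ j * a j + gg (μ j) * b j - (l j * a j + gg (l j) * b j) =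
      (μ j - l j) * (a j + (1 - (μ j + l j) / 4) * b j) := by
    unfold gg
    ring
  have a1 : |1 - (μ j + l j) / 4| ≤ 1 :=
    abs_le.2 ⟨by linarith [hl.le_one hj, hμ.le_one hj], by linarith [hl.1 j hj, hμ.1 j hj]⟩
  have a2 : |a j + (1 - (μ j + l j) / 4) * b j| ≤ 2 * t := by
    refine (abs_add_le _ _).trans ?_
    rw [abs_mul]
    linarith [ha j hj, hb j hj, mul_le_of_le_one_left (abs_nonneg (b j)) a1]
  rw [e, abs_mul]
  exact (mul_le_mul (h j hj) a2 (abs_nonneg _) ((abs_nonneg _).trans (h j hj))).trans_eq (by ring)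

variable {X : Type} [NormedAddCommGroup X] [NormedSpace ℝ X]

def Lp (f : X → ℝ) (C : ℝ) : Prop := ∀ x y, |f y - f x| ≤ C * ‖y - x‖

omit [NormedSpace ℝ X] in
theorem Lp.lip {f : X → ℝ} {C : ℝ} (h : Lp f C) : LipschitzWith C.toNNReal f :=
  LipschitzWith.of_dist_le_mul fun x y => by
    rw [Real.dist_eq, dist_eq_norm]
    exact (h y x).trans (mul_le_mul_of_nonneg_right (Real.le_coe_toNNReal C) (norm_nonneg _))

theorem Lp.dir {f : X → ℝ} {C : ℝ} (h : Lp f C) (hC : 0 ≤ C) {x y v : X} {s : ℝ} (hv : ‖v‖ ≤ 1)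
    (e : y = x + s • v) : |f y - f x| ≤ C * |s| := by
  refine (h x y).trans (mul_le_mul_of_nonneg_left ?_ hC)
  rw [e, add_sub_cancel_left, norm_smul, Real.norm_eq_abs]
  exact mul_le_of_le_one_right (abs_nonneg _) hv

def Df (H : Set X) (f : X → ℝ) (x0 : X) (δ : ℝ) : Prop :=
  ∃ φ : X →L[ℝ] ℝ, ∀ᶠ p : X × X in 𝓝 (x0, x0), ∀ h ∈ H, ∀ s : ℝ, p.2 = p.1 + s • h →
    |f p.2 - f p.1 - s * φ h| ≤ δ * |s|

variable {H : Set X} {x0 : X}

theorem Df.mono {f : X → ℝ} {δ δ' : ℝ} (h : Df H f x0 δ) (e : δ ≤ δ') : Df H f x0 δ' :=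
  h.imp fun _ h => h.mono fun _ h v hv s hs =>
    (h v hv s hs).trans (mul_le_mul_of_nonneg_right e (abs_nonneg _))

theorem Df.sub_const {f : X → ℝ} {δ : ℝ} (h : Df H f x0 δ) (c : ℝ) :
    Df H (fun x => f x - c) x0 δ :=
  h.imp fun _ h => h.mono fun _ h v hv s hs => by simpa using h v hv s hs

theorem Df.st (hH : ∀ h ∈ H, ‖h‖ ≤ 1) {a u : X → ℝ} {δ1 δ2 w c K L ε : ℝ} (d : ℝ) (la : Lp a 2)
    (lu : Lp u 2) (ha : Df H a x0 δ1) (hu : Df H u x0 δ2) (hw : 0 ≤ w) (hc : 0 ≤ c)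
    (hK : ∀ t, |deriv Real.smoothTransition t| ≤ K) (hL : w * K * c ≤ L) (hε : 0 < ε) :
    Df H (fun x => w * Real.smoothTransition (c * (a x - u x) + d)) x0 (L * (δ1 + δ2) + ε) := by
  obtain ⟨φ, ha⟩ := ha
  obtain ⟨ψ, hu⟩ := hu
  obtain ⟨z, hz⟩ : ∃ z : X → ℝ, ∀ x, z x = c * (a x - u x) + d := ⟨_, fun _ => rfl⟩
  have zc : Continuous z := by
    rw [show z = _ from funext hz]
    have := la.lip.continuous
    have := lu.lip.continuous
    fun_prop
  have hs : HasStrictDerivAt Real.smoothTransition (deriv Real.smoothTransition (z x0)) (z x0) :=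
    (Real.smoothTransition.contDiff (n := 1)).hasStrictDerivAt one_ne_zero
  have h1 := hs.hasStrictFDerivAt.isLittleO.bound (c := ε / (4 * w * c + 1)) (by positivity)
  have h2 : Tendsto (fun p : X × X => (z p.2, z p.1)) (𝓝 (x0, x0)) (𝓝 (z x0, z x0)) :=
    ((zc.comp continuous_snd).prodMk (zc.comp continuous_fst)).tendsto (x0, x0)
  refine ⟨(w * deriv Real.smoothTransition (z x0) * c) • (φ - ψ), ?_⟩
  filter_upwards [ha, hu, h2.eventually h1] with p p1 p2 p3 v hv s e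
  simp only [ContinuousLinearMap.toSpanSingleton_apply, smul_eq_mul, Real.norm_eq_abs] at p3
  simp only [← hz, smul_apply, sub_apply, smul_eq_mul]
  have hD := hK (z x0)
  generalize deriv Real.smoothTransition (z x0) = D at *
  have a1 := p1 v hv s e
  have a2 := p2 v hv s e
  have a3 := la.dir zero_le_two (hH v hv) e
  have a4 := lu.dir zero_le_two (hH v hv) e
  have a5 : |z p.2 - z p.1| ≤ c * (4 * |s|) := by
    rw [hz, hz, show c * (a p.2 - u p.2) + d - (c * (a p.1 - u p.1) + d) =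
      c * ((a p.2 - a p.1) - (u p.2 - u p.1)) by ring, abs_mul, abs_of_nonneg hc]
    exact mul_le_mul_of_nonneg_left ((abs_sub _ _).trans (by linarith)) hc
  have a6 : |a p.2 - a p.1 - s * φ v - (u p.2 - u p.1 - s * ψ v)| ≤ (δ1 + δ2) * |s| :=
    (abs_sub _ _).trans (by linarith)
  have a7 : w * Real.smoothTransition (z p.2) - w * Real.smoothTransition (z p.1) -
      s * (w * D * c * (φ v - ψ v)) =
      w * (Real.smoothTransition (z p.2) - Real.smoothTransition (z p.1) - (z p.2 - z p.1) * D) +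
      w * D * c * (a p.2 - a p.1 - s * φ v - (u p.2 - u p.1 - s * ψ v)) := by
    rw [hz p.2, hz p.1]
    ring
  have a8 : |w * D * c| ≤ L := by
    rw [abs_mul, abs_mul, abs_of_nonneg hw, abs_of_nonneg hc]
    exact (mul_le_mul_of_nonneg_right (mul_le_mul_of_nonneg_left hD hw) hc).trans hL
  have a9 : w * (ε / (4 * w * c + 1) * (c * (4 * |s|))) ≤ ε * |s| := by
    rw [show w * (ε / (4 * w * c + 1) * (c * (4 * |s|))) =
      ε * |s| * (4 * w * c / (4 * w * c + 1)) by ring]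
    exact mul_le_of_le_one_right (by positivity) ((div_le_one (by positivity)).2 (by linarith))
  rw [a7]
  refine (abs_add_le _ _).trans ?_
  rw [abs_mul, abs_of_nonneg hw, abs_mul (w * D * c)]
  have b1 := mul_le_mul_of_nonneg_left (p3.trans (mul_le_mul_of_nonneg_left a5 (by positivity))) hw
  have b2 := mul_le_mul a8 a6 (abs_nonneg _) ((abs_nonneg _).trans a8)
  linarith

theorem Df.SS (hH : ∀ h ∈ H, ‖h‖ ≤ 1) {J : Set ι} {a b : ι → X → ℝ} {N : X → ℝ}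
    {δ1 δ2 η ε : ℝ} {j0 : ι} (la : ∀ j ∈ J, Lp (a j) 2) (lb : ∀ j ∈ J, Lp (b j) 2) (lN : Lp N 1)
    (b0 : ∀ j ∈ J, ∀ x, 0 ≤ b j x) (aN : ∀ j ∈ J, ∀ x, a j x ≤ N x) (hj : j0 ∈ J) (hη : 0 < η)
    (top : N x0 + 4 * η ≤ a j0 x0 + b j0 x0 / 2) (hf : {j ∈ J | η ≤ b j x0}.Finite)
    (ha : ∀ j ∈ J, Df H (a j) x0 δ1) (hb : ∀ j ∈ J, Df H (b j) x0 δ2) (hε : 0 < ε) :
    Df H (fun x => SS J (fun j => a j x) fun j => b j x) x0 (δ1 + δ2 + ε) := by
  obtain ⟨F, hF⟩ : ∃ F : Finset ι, ∀ j, j ∈ F ↔ j ∈ J ∧ η ≤ b j x0 :=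
    ⟨hf.toFinset, fun j => by simp⟩
  have FJ : ↑F ⊆ J := fun j h => ((hF j).1 h).1
  have h0 : j0 ∈ F := (hF j0).2 ⟨hj, by linarith [aN j0 hj x0]⟩
  choose l hl using fun x => exists_opt ⟨j0, h0⟩ (fun j => a j x) fun j => b j x
  choose! φ hφ using ha
  choose! ψ hψ using hb
  obtain ⟨κ, κ0, hκ⟩ : ∃ κ > 0, F.card * (4 * κ) ≤ ε :=
    ⟨ε / (4 * F.card + 1), by positivity, by
      rw [show F.card * (4 * (ε / (4 * F.card + 1))) = ε * (4 * F.card / (4 * F.card + 1)) by ring]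
      exact mul_le_of_le_one_right hε.le ((div_le_one (by positivity)).2 (by linarith))⟩
  have vd : ∀ μ x y, Prob F μ → |val F μ (fun j => a j y) (fun j => b j y) -
      val F μ (fun j => a j x) fun j => b j x| ≤ 2 * ‖y - x‖ + 2 * ‖y - x‖ := fun μ x y hμ => by
    rw [val_sub]
    exact val_abs hμ (fun j hj => la j (FJ hj) x y) fun j hj => lb j (FJ hj) x y
  have loc : ∀ᶠ x in 𝓝 x0, MP_0d212c.SS J (fun j => a j x) (fun j => b j x) =
      val F (l x) (fun j => a j x) (fun j => b j x) ∧ ∀ j ∈ F, |l x j - l x0 j| ≤ κ := by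
    filter_upwards [Metric.ball_mem_nhds x0 (show 0 < min (η / 2) (η * κ ^ 2 / 64) by positivity)]
      with x hx
    rw [mem_ball_iff_norm, lt_min_iff] at hx
    refine ⟨(hl x).eq_SS FJ h0 (fun j hj => b0 j hj x) fun j h1 h2 => ?_, fun j hj => ?_⟩
    · have := not_le.1 fun e => h2 ((hF j).2 ⟨h1, e⟩)
      linarith [(abs_le.1 (lb j h1 x0 x)).2, aN j h1 x, (abs_le.1 (lN x0 x)).2,
        (abs_le.1 (la j0 hj x0 x)).1, (abs_le.1 (lb j0 hj x0 x)).1, hx.1]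
    · have a1 := (hl x0).strong (hl x).1 hη.le (fun j hj => ((hF j).1 hj).2) hj
      have a2 := (hl x).2 _ (hl x0).1
      have a3 := abs_le.1 (vd _ x0 x (hl x).1)
      have a4 := abs_le.1 (vd _ x0 x (hl x0).1)
      rw [abs_sub_comm]
      refine abs_le_of_sq_le_sq' (le_of_mul_le_mul_left ?_ hη) κ0.le |> abs_le.2
      linarith [hx.2]
  refine ⟨∑ j ∈ F, (l x0 j • φ j + gg (l x0 j) • ψ j), ?_⟩
  filter_upwards [(continuous_fst.tendsto (x0, x0)).eventually loc,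
    (continuous_snd.tendsto (x0, x0)).eventually loc,
    (eventually_all_finset F).2 fun j hj => hφ j (FJ hj),
    (eventually_all_finset F).2 fun j hj => hψ j (FJ hj)] with p p1 p2 p3 p4 v hv s e
  have est : ∀ μ, Prob F μ → (∀ j ∈ F, |μ j - l x0 j| ≤ κ) →
      |val F μ (fun j => a j p.2) (fun j => b j p.2) - val F μ (fun j => a j p.1) (fun j => b j p.1)
        - s * (∑ j ∈ F, (l x0 j • φ j + gg (l x0 j) • ψ j)) v| ≤ (δ1 + δ2 + ε) * |s| := by
    intro μ h1 h2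
    have a1 := val_near (hl x0).1 h1 h2 (fun j hj => (la j (FJ hj)).dir zero_le_two (hH v hv) e)
      fun j hj => (lb j (FJ hj)).dir zero_le_two (hH v hv) e
    have a2 := val_abs (hl x0).1 (fun j hj => p3 j hj v hv s e) fun j hj => p4 j hj v hv s e
    have a3 : s * (∑ j ∈ F, (l x0 j • φ j + gg (l x0 j) • ψ j)) v =
        val F (l x0) (fun j => s * φ j v) fun j => s * ψ j v := by
      simp only [val, sum_apply, add_apply, smul_apply, smul_eq_mul,
        Finset.mul_sum]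
      exact Finset.sum_congr rfl fun j _ => by ring
    rw [← val_sub] at a2
    rw [val_sub, a3]
    have a4 := mul_le_mul_of_nonneg_right hκ (abs_nonneg s)
    exact (abs_sub_le _ _ _).trans (by linarith)
  have e1 := abs_le.1 (est _ (hl p.1).1 p1.2)
  have e2 := abs_le.1 (est _ (hl p.2).1 p2.2)
  have e3 := (hl p.1).2 _ (hl p.2).1
  have e4 := (hl p.2).2 _ (hl p.1).1
  rw [p1.1, p2.1]
  exact abs_le.2 ⟨by linarith [e1.1], by linarith [e2.2]⟩

theorem strict_of_Df {f : X → ℝ} (h : ∀ δ > 0, Df (Metric.closedBall 0 1) f x0 δ) :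
    ∃ φ : X →L[ℝ] ℝ, HasStrictFDerivAt f φ x0 := by
  have k : ∀ δ > 0, ∃ φ : X →L[ℝ] ℝ, ∀ᶠ p : X × X in 𝓝 (x0, x0),
      |f p.2 - f p.1 - φ (p.2 - p.1)| ≤ δ * ‖p.2 - p.1‖ := fun δ hδ => by
    refine (h δ hδ).imp fun φ hφ => hφ.mono fun p hp => ?_
    rcases eq_or_ne (p.2 - p.1) 0 with e | e
    · simp [sub_eq_zero.1 e]
    have n0 := norm_ne_zero_iff.2 e
    have := hp (‖p.2 - p.1‖⁻¹ • (p.2 - p.1)) (by simp [norm_smul, n0]) ‖p.2 - p.1‖
      (by rw [smul_inv_smul₀ n0, add_sub_cancel])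
    rwa [map_smul, smul_eq_mul, mul_inv_cancel_left₀ n0, abs_norm] at this
  choose φ hφ using fun n : ℕ => k (1 / (n + 1)) (by positivity)
  have d : ∀ n m, ‖φ n - φ m‖ ≤ 1 / (n + 1) + 1 / (m + 1) := fun n m => by
    obtain ⟨r, r0, hr⟩ := Metric.eventually_nhds_iff.1 ((Continuous.prodMk_right x0).tendsto x0
      |>.eventually ((hφ n).and (hφ m)))
    refine ContinuousLinearMap.opNorm_le_of_ball r0 (by positivity) fun v hv => ?_
    obtain ⟨a1, a2⟩ := @hr (x0 + v) (by simpa using hv)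
    simp only [add_sub_cancel_left] at a1 a2
    rw [sub_apply, Real.norm_eq_abs, abs_le]
    constructor <;> linarith [abs_le.1 a1, abs_le.1 a2]
  have t0 : Tendsto (fun n : ℕ => 1 / ((n : ℝ) + 1)) atTop (𝓝 0) :=
    tendsto_one_div_add_atTop_nhds_zero_nat
  obtain ⟨ψ, hψ⟩ := cauchySeq_tendsto_of_complete (u := φ) (cauchySeq_of_le_tendsto_0'
    (fun n : ℕ => 1 / ((n : ℝ) + 1) + 1 / ((n : ℝ) + 1)) (fun n m h => by
      rw [dist_eq_norm]
      exact (d n m).trans (add_le_add le_rfl (Nat.one_div_le_one_div h))) (by simpa using t0.add t0))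
  refine ⟨ψ, hasStrictFDerivAt_iff_isLittleO.2 (Asymptotics.isLittleO_iff.2 fun ε hε => ?_)⟩
  obtain ⟨n, n1, n2⟩ := ((t0.eventually (gt_mem_nhds (half_pos hε))).and
    ((tendsto_iff_norm_sub_tendsto_zero.1 hψ).eventually (gt_mem_nhds (half_pos hε)))).exists
  filter_upwards [(continuous_swap.tendsto (x0, x0)).eventually (hφ n)] with p hp
  simp only [Prod.snd_swap, Prod.fst_swap] at hp
  have a1 := (φ n - ψ).le_opNorm (p.1 - p.2)
  rw [sub_apply, Real.norm_eq_abs] at a1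
  rw [Real.norm_eq_abs]
  have a2 := mul_le_mul_of_nonneg_right n1.le (norm_nonneg (p.1 - p.2))
  have a3 := mul_le_mul_of_nonneg_right n2.le (norm_nonneg (p.1 - p.2))
  rw [abs_le] at hp a1 ⊢
  constructor <;> linarith [hp.1, hp.2, a1.1, a1.2]

theorem c1_of_strict {f : X → ℝ} (h : ∀ x, ∃ φ : X →L[ℝ] ℝ, HasStrictFDerivAt f φ x) :
    ContDiff ℝ 1 f := by
  choose φ hφ using h
  refine contDiff_one_iff_hasFDerivAt.2 ⟨φ, continuous_iff_continuousAt.2 fun x =>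
    Metric.tendsto_nhds.2 fun ε hε => ?_, fun x => (hφ x).hasFDerivAt⟩
  obtain ⟨s, hs, hl⟩ := ((hφ x).sub (φ x).hasStrictFDerivAt).exists_lipschitzOnWith_of_nnnorm_lt
    (ε / 2).toNNReal (by simp [hε])
  filter_upwards [eventually_mem_nhds_iff.2 hs] with y hy
  have := ((hφ y).hasFDerivAt.sub (φ x).hasFDerivAt).le_of_lipschitzOn hy hl
  rw [dist_eq_norm]
  rw [Real.coe_toNNReal _ (half_pos hε).le] at this
  linarith

theorem gat_of_Df {f : X → ℝ} {C : ℝ} (hl : Lp f C)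
    (h : ∀ H : Set X, H.Finite → (∀ h ∈ H, ‖h‖ ≤ 1) → ∀ δ > 0, Df H f x0 δ) :
    ∃ φ : X →L[ℝ] ℝ, ∀ v, HasDerivAt (fun t : ℝ => f (x0 + t • v)) (φ v) 0 := by
  have k : ∀ H : Set X, H.Finite → ∀ δ > 0, ∃ φ : X →L[ℝ] ℝ, ∀ v ∈ H, ∀ᶠ t in 𝓝[≠] (0 : ℝ),
      |t⁻¹ * (f (x0 + t • v) - f x0) - φ v| ≤ δ := fun H hH δ hδ => by
    obtain ⟨R, hR⟩ := hH.isBounded.exists_pos_norm_le
    obtain ⟨φ, hφ⟩ := h ((fun v => R⁻¹ • v) '' H) (hH.image _) (by
      rintro _ ⟨v, hv, rfl⟩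
      rw [norm_smul, norm_inv, Real.norm_of_nonneg hR.1.le, inv_mul_le_one₀ hR.1]
      exact hR.2 v hv) (δ / R) (div_pos hδ hR.1)
    refine ⟨φ, fun v hv => ?_⟩
    have tc : Tendsto (fun t : ℝ => (x0, x0 + t • v)) (𝓝[≠] 0) (𝓝 (x0, x0)) :=
      tendsto_nhdsWithin_of_tendsto_nhds (Continuous.tendsto' (by fun_prop) _ _ (by simp))
    filter_upwards [tc.eventually hφ, self_mem_nhdsWithin] with t ht t0
    have t0 : t ≠ 0 := t0
    have := ht _ ⟨v, hv, rfl⟩ (t * R) (by simp [smul_smul, hR.1.ne'])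
    simp only [map_smul, smul_eq_mul] at this
    rw [mul_assoc, mul_inv_cancel_left₀ hR.1.ne', abs_mul, abs_of_pos hR.1, mul_comm |t|,
      ← mul_assoc, div_mul_cancel₀ _ hR.1.ne'] at this
    rw [show t⁻¹ * (f (x0 + t • v) - f x0) - φ v = t⁻¹ * (f (x0 + t • v) - f x0 - t * φ v) by
      field_simp, abs_mul, abs_inv, inv_mul_le_iff₀ (abs_pos.2 t0), mul_comm |t|]
    exact this
  have ex : ∀ v, ∃ d, Tendsto (fun t : ℝ => t⁻¹ * (f (x0 + t • v) - f x0)) (𝓝[≠] 0) (𝓝 d) :=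
    fun v => by
      refine cauchy_map_iff_exists_tendsto.1 (Metric.cauchy_iff.2 ⟨inferInstance, fun ε hε => ?_⟩)
      obtain ⟨φ, hφ⟩ := k {v} (finite_singleton v) (ε / 3) (by positivity)
      refine ⟨{r | |r - φ v| ≤ ε / 3}, hφ v rfl, fun r hr r' hr' => ?_⟩
      rw [Real.dist_eq, abs_lt]
      rw [mem_ofPred_eq, abs_le] at hr hr'
      constructor <;> linarith [hr.1, hr.2, hr'.1, hr'.2]
  choose d hd using ex
  have k2 : ∀ H : Set X, H.Finite → ∀ δ > 0, ∃ φ : X →L[ℝ] ℝ, ∀ v ∈ H, |d v - φ v| ≤ δ :=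
    fun H hH δ hδ => (k H hH δ hδ).imp fun φ hφ v hv =>
      le_of_tendsto ((hd v).sub_const _).abs (hφ v hv)
  have zr : ∀ r c : ℝ, 0 < c → (∀ δ > 0, |r| ≤ c * δ) → r = 0 := fun r c hc h =>
    abs_nonpos_iff.1 (le_of_forall_pos_le_add fun ε hε => by
      simpa [mul_div_cancel₀ _ hc.ne'] using h (ε / c) (div_pos hε hc))
  refine ⟨LinearMap.mkContinuous
    { toFun := d
      map_add' := fun u v => sub_eq_zero.1 (zr _ 3 three_pos fun δ hδ => ?_)
      map_smul' := fun c v => sub_eq_zero.1 (zr _ (1 + |c|) (by positivity) fun δ hδ => ?_) }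
    C fun v => le_of_tendsto (hd v).norm ?_, fun v => hasDerivAt_iff_tendsto_slope_zero.2 ?_⟩
  · obtain ⟨φ, hφ⟩ := k2 {u, v, u + v} (toFinite _) δ hδ
    have a1 := abs_le.1 (hφ u (by simp))
    have a2 := abs_le.1 (hφ v (by simp))
    have a3 := abs_le.1 (hφ (u + v) (by simp))
    rw [map_add] at a3
    exact abs_le.2 ⟨by linarith, by linarith⟩
  · obtain ⟨φ, hφ⟩ := k2 {v, c • v} (toFinite _) δ hδ
    have a1 := mul_le_mul_of_nonneg_left (hφ v (by simp)) (abs_nonneg c)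
    have a2 := hφ (c • v) (by simp)
    rw [map_smul, smul_eq_mul] at a2
    rw [← abs_mul, mul_sub, abs_sub_comm] at a1
    exact (abs_sub_le _ (c * φ v) _).trans (by simp only [RingHom.id_apply, smul_eq_mul]; linarith)
  · filter_upwards [self_mem_nhdsWithin] with t t0
    have := hl x0 (x0 + t • v)
    rw [add_sub_cancel_left, norm_smul, Real.norm_eq_abs] at this
    rw [Real.norm_eq_abs, abs_mul, abs_inv, inv_mul_le_iff₀ (abs_pos.2 t0)]
    linarith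
  · simpa using hd v

end Pool.Agent.H.MP_0d212c
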