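import Pool.Agent.H.MP_0d212c.B

set_option autoImplicit false
open Set Filter Topology Function

namespace Pool.Agent.H.MP_0d212c

variable {K : Type} [TopologicalSpace K]

def Adm (A : Set K) : Prop := IsClosed A ∧ A.Nonempty

def Fam (small : Set K → Prop) (A : Set K) (F : Set (Set K × Set K)) : Prop :=
  (∀ p ∈ F, Adm p.1 ∧ p.1 ⊆ A ∧ small p.1 ∧ IsClosed p.2 ∧ p.2 ⊆ A) ∧
  (∀ φ : K → ℝ, Continuous φ →
    ∃ p ∈ F, ∃ z ∈ p.1, (∀ w ∈ A, φ w ≤ φ z) ∧ ∀ w ∈ p.2, φ w < φ z) ∧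
  ∀ p ∈ F, ∀ q ∈ F, p ≠ q → p.1 ⊆ q.2 ∨ q.1 ⊆ p.2

theorem fam [CompactSpace K] (small : Set K → Prop)
    (hfr : ∀ B, Adm B → ∃ U, IsOpen U ∧ (U ∩ B).Nonempty ∧ small (closure (U ∩ B)))
    (A : Set K) (hA : Adm A) : ∃ F, Fam small A F := by
  have : ∀ B, ∃ U, IsOpen U ∧ (Adm B → (U ∩ B).Nonempty ∧ small (closure (U ∩ B))) := fun B => by
    by_cases h : Adm B
    · exact (hfr B h).imp fun U hU => ⟨hU.1, fun _ => hU.2⟩
    · exact ⟨∅, isOpen_empty, fun e => absurd e h⟩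
  choose U U1 U2 using this
  obtain ⟨B, hB⟩ : ∃ B : Ordinal.{0} → Set K, ∀ α, B α = A ∩ ⋂ β < α, B β \ U (B β) :=
    ⟨WellFoundedLT.fix fun α ih => A ∩ ⋂ β, ⋂ h : β < α, ih β h \ U (ih β h),
      fun α => by rw [WellFoundedLT.fix_eq]⟩
  have b1 : ∀ α, IsClosed (B α) := fun α => by
    induction α using WellFoundedLT.induction with | ind α ih => ?_
    rw [hB]
    exact hA.1.inter (isClosed_iInter fun β => isClosed_iInter fun h => (ih β h).sdiff (U1 _))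
  have b2 : ∀ α, B α ⊆ A := fun α => hB α ▸ inter_subset_left
  have b3 : ∀ α β, β < α → B α ⊆ B β \ U (B β) := fun α β h z hz => by
    rw [hB] at hz
    exact mem_iInter₂.1 hz.2 β h
  have b4 : ∀ α, closure (U (B α) ∩ B α) ⊆ B α := fun α =>
    closure_minimal inter_subset_right (b1 α)
  have b5 : ∃ α, B α = ∅ := by
    by_contra h
    push Not at h
    have k : ∀ α β, β < α → B α ≠ B β := fun α β e e' => by
      obtain ⟨z, z1, z2⟩ := (U2 _ ⟨b1 β, h β⟩).1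
      exact (b3 α β e (e' ▸ z2)).2 z1
    refine not_injective_of_ordinal B fun α β e => ?_
    rcases lt_trichotomy α β with c | c | c
    exacts [absurd e.symm (k _ _ c), c, absurd e (k _ _ c)]
  refine ⟨{p | ∃ α, (B α).Nonempty ∧ p = (closure (U (B α) ∩ B α), B α \ U (B α))}, ?_,
    fun φ hφ => ?_, ?_⟩
  · rintro _ ⟨α, h, rfl⟩
    exact ⟨⟨isClosed_closure, (U2 _ ⟨b1 α, h⟩).1.closure⟩, (b4 α).trans (b2 α),
      (U2 _ ⟨b1 α, h⟩).2, (b1 α).sdiff (U1 _), sdiff_subset.trans (b2 α)⟩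
  · obtain ⟨z0, z1, z2⟩ := hA.1.isCompact.exists_isMaxOn hA.2 hφ.continuousOn
    have hZ : IsClosed {z ∈ A | φ z0 ≤ φ z} := hA.1.inter (isClosed_le continuous_const hφ)
    obtain ⟨α, a1, a2⟩ := wellFounded_lt.has_min
      {α | ¬ ({z ∈ A | φ z0 ≤ φ z} ∩ (B α \ U (B α))).Nonempty} (b5.imp fun α h => by simp [h])
    obtain ⟨z, c1, c2⟩ := hZ.isCompact.inter_iInter_nonempty
      (fun β : Iio α => B β \ U (B β)) (fun β => (b1 β).sdiff (U1 _)) fun u => by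
        rcases u.eq_empty_or_nonempty with rfl | hu
        · exact ⟨z0, ⟨z1, le_rfl⟩, by simp⟩
        · obtain ⟨β, h1, h2⟩ := u.exists_max_image id hu
          obtain ⟨z, c1, c2⟩ := not_not.1 fun e => a2 β e β.2
          refine ⟨z, c1, mem_iInter₂.2 fun γ hγ => ?_⟩
          rcases (h2 γ hγ).eq_or_lt with e | e
          · exact (show γ = β from e) ▸ c2
          · exact b3 _ _ e c2.1
    have c3 : z ∈ B α := by
      rw [hB]
      exact ⟨c1.1, mem_iInter₂.2 fun β h => mem_iInter.1 c2 ⟨β, h⟩⟩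
    refine ⟨_, ⟨α, ⟨z, c3⟩, rfl⟩, z, subset_closure ⟨not_not.1 fun e => a1 ⟨z, c1, c3, e⟩, c3⟩,
      fun w hw => (z2 hw).trans c1.2, fun w hw => lt_of_lt_of_le (not_le.1 fun e => ?_) c1.2⟩
    exact a1 ⟨w, ⟨b2 α hw.1, e⟩, hw⟩
  · rintro _ ⟨α, -, rfl⟩ _ ⟨β, -, rfl⟩ h
    rcases lt_trichotomy α β with c | c | c
    · exact Or.inr ((b4 β).trans (b3 _ _ c))
    · exact absurd (by rw [c]) h
    · exact Or.inl ((b4 α).trans (b3 _ _ c))

abbrev Nd (K : Type) : Type := Set K × ℕ × ℕ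

abbrev Ix (K : Type) : Type := (Set K × Set K) × ℕ

noncomputable def ww (m : ℕ) : ℝ := (1 / 4) ^ m

noncomputable def LL (m : ℕ) : ℝ := (1 / 2) ^ m / 10

noncomputable def aa (u : Nd K → ℝ) (k : ℕ) (j : Ix K) : ℝ := u (j.1.1, k + 1, j.2 + 1) - ww (j.2 + 1)

open Classical in
noncomputable def TT (A : Set K) (j : Ix K) : Set K := if j.1.2.Nonempty then j.1.2 else A

open Classical in
noncomputable def cc (C : ℝ) (j : Ix K) : ℝ :=
  if j.1.2.Nonempty then (10 * C * (1 / 2) ^ j.2)⁻¹ else 0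

open Classical in
noncomputable def dd (j : Ix K) : ℝ := if j.1.2.Nonempty then -1 else 1

noncomputable def bb (C : ℝ) (u : Nd K → ℝ) (A : Set K) (k : ℕ) (j : Ix K) : ℝ :=
  ww j.2 * Real.smoothTransition (cc C j * (aa u k j - u (TT A j, k, j.2 + 1)) + dd j)

def JJ (Fm : ℕ → Set K → Set (Set K × Set K)) (n : Nd K) : Set (Ix K) :=
  {j | j.1 ∈ Fm n.2.1 n.1 ∧ n.2.2 ≤ j.2}

noncomputable def Ph (C : ℝ) (Fm : ℕ → Set K → Set (Set K × Set K)) (u : Nd K → ℝ) (n : Nd K) :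
    ℝ := SS (JJ Fm n) (aa u n.2.1) (bb C u n.1 n.2.1)

theorem ww_pos (m : ℕ) : 0 < ww m := by unfold ww; positivity

theorem ww_succ (m : ℕ) : ww (m + 1) = ww m / 4 := by unfold ww; ring

theorem ww_anti {i m : ℕ} (h : i ≤ m) : ww m ≤ ww i :=
  pow_le_pow_of_le_one (by norm_num) (by norm_num) h

theorem half_anti {i m : ℕ} (h : i ≤ m) : (1 / 2 : ℝ) ^ m ≤ (1 / 2) ^ i :=
  pow_le_pow_of_le_one (by norm_num) (by norm_num) h

theorem LL_pos (m : ℕ) : 0 < LL m := by unfold LL; positivity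

theorem LL_le (m : ℕ) : LL m ≤ 1 / 10 := by
  unfold LL
  linarith [half_anti (Nat.zero_le m), pow_zero (1 / 2 : ℝ)]

omit [TopologicalSpace K] in
theorem cc_le {C : ℝ} (hC : 1 ≤ C) (j : Ix K) : 0 ≤ cc C j ∧ ww j.2 * C * cc C j ≤ LL j.2 := by
  unfold cc
  split_ifs
  · refine ⟨by positivity, le_of_eq ?_⟩
    unfold ww LL
    rw [show (1 / 4 : ℝ) = 1 / 2 * (1 / 2) by norm_num, mul_pow]
    field_simp
  · simpa using (LL_pos _).le

omit [TopologicalSpace K] in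
theorem bb_mem (C : ℝ) (u : Nd K → ℝ) (A : Set K) (k : ℕ) (j : Ix K) :
    0 ≤ bb C u A k j ∧ bb C u A k j ≤ ww j.2 :=
  ⟨mul_nonneg (ww_pos _).le (Real.smoothTransition.nonneg _),
    mul_le_of_le_one_right (ww_pos _).le (Real.smoothTransition.le_one _)⟩

omit [TopologicalSpace K] in
theorem bb_sub {C : ℝ} (hC : 1 ≤ C)
    (hl : ∀ s t, |Real.smoothTransition s - Real.smoothTransition t| ≤ C * |s - t|)
    {u u' : Nd K → ℝ} (A : Set K) (k : ℕ) (j : Ix K) {t e : ℝ}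
    (h1 : |u (j.1.1, k + 1, j.2 + 1) - u' (j.1.1, k + 1, j.2 + 1) - t| ≤ e)
    (h2 : |u (TT A j, k, j.2 + 1) - u' (TT A j, k, j.2 + 1) - t| ≤ e) :
    |bb C u A k j - bb C u' A k j| ≤ 2 * LL j.2 * e := by
  unfold bb aa
  rw [← mul_sub, abs_mul, abs_of_pos (ww_pos _)]
  refine (mul_le_mul_of_nonneg_left (hl _ _) (ww_pos _).le).trans ?_
  rw [add_sub_add_right_eq_sub, ← mul_sub, abs_mul, abs_of_nonneg (cc_le hC j).1, ← mul_assoc,
    ← mul_assoc, show 2 * LL j.2 * e = LL j.2 * (e + e) by ring]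
  refine mul_le_mul (cc_le hC j).2 ?_ (abs_nonneg _) (LL_pos _).le
  rw [abs_le] at h1 h2 ⊢
  constructor <;> linarith [h1.1, h1.2, h2.1, h2.2]

theorem TT_adm {small : Set K → Prop} {A : Set K} {F : Set (Set K × Set K)} (hA : Adm A)
    (h : Fam small A F) {j : Ix K} (hj : j.1 ∈ F) : Adm (TT A j) ∧ TT A j ⊆ A := by
  unfold TT
  split_ifs with e
  · exact ⟨⟨(h.1 _ hj).2.2.2.1, e⟩, (h.1 _ hj).2.2.2.2⟩
  · exact ⟨hA, subset_rfl⟩

variable {X : Type} [NormedAddCommGroup X] [NormedSpace ℝ X] (ev : K → X →L[ℝ] ℝ)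

noncomputable def NN (A : Set K) (x : X) : ℝ := sSup ((fun z => ev z x) '' A)

def Inv (x : X) (u : Nd K → ℝ) : Prop :=
  ∀ n : Nd K, Adm n.1 → NN ev n.1 x ≤ u n ∧ u n ≤ NN ev n.1 x + ww n.2.2

omit [TopologicalSpace K] in
theorem NN_le {A : Set K} (hA : A.Nonempty) {x : X} {b : ℝ} (h : ∀ z ∈ A, ev z x ≤ b) :
    NN ev A x ≤ b := csSup_le (hA.image _) (by rintro _ ⟨z, hz, rfl⟩; exact h z hz)

variable {ev} (hev : ∀ z, ‖ev z‖ ≤ 1)
include hev

omit [TopologicalSpace K] in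
theorem ev_le (z : K) (x : X) : |ev z x| ≤ ‖x‖ :=
  ((ev z).le_of_opNorm_le (hev z) x).trans_eq (one_mul _)

omit [TopologicalSpace K] in
theorem le_NN {A : Set K} {z : K} (hz : z ∈ A) (x : X) : ev z x ≤ NN ev A x :=
  le_csSup ⟨‖x‖, by rintro _ ⟨z, -, rfl⟩; exact (abs_le.1 (ev_le hev z x)).2⟩ ⟨z, hz, rfl⟩

omit [TopologicalSpace K] in
theorem NN_mono {A B : Set K} (hA : A.Nonempty) (h : A ⊆ B) (x : X) : NN ev A x ≤ NN ev B x :=
  NN_le ev hA fun _ hz => le_NN hev (h hz) x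

omit [TopologicalSpace K] in
theorem NN_lt {A : Set K} (hA : A.Nonempty) (x v : X) {t c : ℝ} (h : ∀ z ∈ A, |ev z v - t| ≤ c) :
    |NN ev A (x + v) - NN ev A x - t| ≤ c := by
  have a1 : NN ev A (x + v) ≤ NN ev A x + t + c := NN_le ev hA fun z hz => by
    rw [map_add]
    linarith [le_NN hev hz x, (abs_le.1 (h z hz)).2]
  have a2 : NN ev A x ≤ NN ev A (x + v) - t + c := NN_le ev hA fun z hz => by
    have := le_NN hev hz (x + v)
    rw [map_add] at this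
    linarith [(abs_le.1 (h z hz)).1]
  exact abs_le.2 ⟨by linarith, by linarith⟩

omit [TopologicalSpace K] in
theorem NN_abs {A : Set K} (hA : A.Nonempty) (x : X) : |NN ev A x| ≤ ‖x‖ := by
  obtain ⟨z, hz⟩ := hA
  exact abs_le.2 ⟨(abs_le.1 (ev_le hev z x)).1.trans (le_NN hev hz x),
    NN_le ev ⟨z, hz⟩ fun z _ => (abs_le.1 (ev_le hev z x)).2⟩

variable {small : ℕ → Set K → Prop} {Fm : ℕ → Set K → Set (Set K × Set K)}
  (hF : ∀ k A, Adm A → Fam (small k) A (Fm k A)) {C : ℝ}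
include hF

theorem aa_le {x : X} {u : Nd K → ℝ} (hu : Inv ev x u) {A : Set K} (hA : Adm A) {k : ℕ} {j : Ix K}
    (hj : j.1 ∈ Fm k A) : aa u k j ≤ NN ev j.1.1 x ∧ NN ev j.1.1 x ≤ NN ev A x := by
  have := (hF k A hA).1 _ hj
  exact ⟨sub_le_iff_le_add.2 (hu (j.1.1, k + 1, j.2 + 1) this.1).2,
    NN_mono hev this.1.2 this.2.1 x⟩

theorem bnd {x : X} {u : Nd K → ℝ} (hu : Inv ev x u) {n : Nd K} (hA : Adm n.1) :
    ∀ j ∈ JJ Fm n, ∀ γ ∈ Icc (0 : ℝ) 1,
      aa u n.2.1 j + γ * bb C u n.1 n.2.1 j ≤ NN ev n.1 x + ww n.2.2 := fun j hj γ hγ => by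
  have a1 := aa_le hev hF hu hA hj.1
  have a2 := bb_mem C u n.1 n.2.1 j
  linarith [a1.1, a1.2, mul_le_of_le_one_left a2.1 hγ.2, a2.2, ww_anti hj.2]

variable [CompactSpace K] (cev : ∀ x, Continuous fun z => ev z x) (hC : 1 ≤ C)
include cev hC

theorem top {x : X} {u : Nd K → ℝ} (hu : Inv ev x u) {n : Nd K} (hA : Adm n.1) :
    ∃ j ∈ JJ Fm n, bb C u n.1 n.2.1 j = ww j.2 ∧ NN ev n.1 x - ww j.2 / 4 ≤ aa u n.2.1 j := by
  obtain ⟨p, p1, z, z1, z2, z3⟩ := (hF _ _ hA).2.1 _ (cev x)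
  have a0 := (hF _ _ hA).1 p p1
  have a1 : ∀ m, NN ev n.1 x - ww m / 4 ≤ aa u n.2.1 (p, m) := fun m => by
    have := (hu (p.1, n.2.1 + 1, m + 1) a0.1).1
    unfold aa
    rw [ww_succ]
    linarith [NN_le ev hA.2 z2, le_NN hev z1 x]
  by_cases e : p.2.Nonempty
  · obtain ⟨w, w1, w2⟩ := a0.2.2.2.1.isCompact.exists_isMaxOn e (cev x).continuousOn
    have g : NN ev p.2 x < NN ev n.1 x :=
      (NN_le ev e w2).trans_lt ((z3 w w1).trans_le (le_NN hev (a0.2.1 z1) x))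
    have t0 : Tendsto (fun m : ℕ => (20 * C + 1) * (1 / 2 : ℝ) ^ m) atTop (𝓝 0) := by
      simpa using (tendsto_pow_atTop_nhds_zero_of_lt_one (r := (1 / 2 : ℝ)) (by norm_num)
        (by norm_num)).const_mul (20 * C + 1)
    obtain ⟨m, m1, m2⟩ := ((eventually_ge_atTop n.2.2).and
      (t0.eventually (gt_mem_nhds (sub_pos.2 g)))).exists
    refine ⟨(p, m), ⟨p1, m1⟩, ?_, a1 m⟩
    unfold bb
    rw [Real.smoothTransition.one_of_one_le, mul_one]
    have b1 := (hu (p.2, n.2.1, m + 1) ⟨a0.2.2.2.1, e⟩).2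
    have b2 : ww m ≤ (1 / 2) ^ m := pow_le_pow_left₀ (by norm_num) (by norm_num) m
    simp only [cc, dd, TT, if_pos e, ww_succ] at b1 ⊢
    rw [← sub_le_iff_le_add, le_inv_mul_iff₀ (by positivity)]
    linarith [a1 m, ww_pos m]
  · refine ⟨(p, n.2.2), ⟨p1, le_rfl⟩, ?_, a1 _⟩
    unfold bb
    rw [Real.smoothTransition.one_of_one_le, mul_one]
    simp [cc, dd, e]

theorem Ph_inv {x : X} {u : Nd K → ℝ} (hu : Inv ev x u) : Inv ev x (Ph C Fm u) := fun n hA => by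
  obtain ⟨j, j1, j2, j3⟩ := top hev hF cev hC hu hA
  refine ⟨le_trans ?_ (single_le_SS (bnd hev hF hu hA) j1), SS_le ⟨j, j1⟩ fun s l h1 h2 =>
    val_le h2 fun j hj => bnd hev hF hu hA j (h1 hj)⟩
  rw [j2]
  linarith [ww_pos j.2]

variable (hl : ∀ s t, |Real.smoothTransition s - Real.smoothTransition t| ≤ C * |s - t|)
include hl

theorem Ph_cmp {x x' : X} {u u' : Nd K → ℝ} (hu : Inv ev x u) (hu' : Inv ev x' u') {n : Nd K}
    (hA : Adm n.1) {t E : ℝ} {e : ℕ → ℝ}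
    (h : ∀ m : Nd K, Adm m.1 → m.1 ⊆ n.1 → |u m - u' m - t| ≤ e m.2.2)
    (hE : ∀ m, n.2.2 ≤ m → (1 + 2 * LL m) * e (m + 1) ≤ E) :
    |Ph C Fm u n - Ph C Fm u' n - t| ≤ E := by
  obtain ⟨j0, j1, -⟩ := top hev hF cev hC hu hA
  have k : ∀ j ∈ JJ Fm n, ∀ γ ∈ Icc (0 : ℝ) 1, |aa u n.2.1 j - aa u' n.2.1 j +
      γ * (bb C u n.1 n.2.1 j - bb C u' n.1 n.2.1 j) - t| ≤ E := fun j hj γ hγ => by
    have a0 := (hF _ _ hA).1 _ hj.1
    have a1 := h (j.1.1, n.2.1 + 1, j.2 + 1) a0.1 a0.2.1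
    have a2 := TT_adm hA (hF _ _ hA) hj.1
    have a3 := bb_sub hC hl n.1 n.2.1 j a1 (h (TT n.1 j, n.2.1, j.2 + 1) a2.1 a2.2)
    have a4 : |γ * (bb C u n.1 n.2.1 j - bb C u' n.1 n.2.1 j)| ≤ 2 * LL j.2 * e (j.2 + 1) := by
      rw [abs_mul, abs_of_nonneg hγ.1]
      exact (mul_le_of_le_one_left (abs_nonneg _) hγ.2).trans a3
    have a5 := hE j.2 hj.2
    unfold aa
    rw [abs_le] at a1 a4 ⊢
    constructor <;> linarith [a1.1, a1.2, a4.1, a4.2]
  have b1 := SS_sub (a := aa u n.2.1) (b := bb C u n.1 n.2.1) (T := t + E) ⟨j0, j1⟩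
    (bnd (C := C) hev hF hu' hA) fun j hj γ hγ => by
    linarith [(abs_le.1 (k j hj γ hγ)).2]
  have b2 := SS_sub (a := aa u' n.2.1) (b := bb C u' n.1 n.2.1) (T := -t + E) ⟨j0, j1⟩
    (bnd (C := C) hev hF hu hA) fun j hj γ hγ => by
    linarith [(abs_le.1 (k j hj γ hγ)).1]
  unfold Ph
  exact abs_le.2 ⟨by linarith, by linarith⟩

theorem exists_u : ∃ u : X → Nd K → ℝ, (∀ x, Inv ev x (u x)) ∧
    (∀ x n, Adm n.1 → u x n = Ph C Fm (u x) n) ∧
    ∀ x v t c (n : Nd K), Adm n.1 → (∀ z ∈ n.1, |ev z v - t| ≤ c) →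
      |u (x + v) n - u x n - t| ≤ (1 + (1 / 2) ^ n.2.2) * c := by
  obtain ⟨U, U0, U1⟩ : ∃ U : ℕ → X → Nd K → ℝ, (∀ x n, U 0 x n = NN ev n.1 x) ∧
      ∀ d x, U (d + 1) x = Ph C Fm (U d x) :=
    ⟨fun d x => (Ph C Fm)^[d] fun n => NN ev n.1 x, fun _ _ => rfl,
      fun d x => iterate_succ_apply' _ _ _⟩
  have i1 : ∀ d x, Inv ev x (U d x) := fun d x => by
    induction d with
    | zero => exact fun n _ => by rw [U0]; exact ⟨le_rfl, le_add_of_nonneg_right (ww_pos _).le⟩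
    | succ d ih => exact U1 d x ▸ Ph_inv hev hF cev hC ih
  have ct : ∀ (c : ℝ) i m, 0 ≤ c → i ≤ m → (1 + 2 * LL m) * (ww (m + 1) * c) ≤ ww i * (c / 2) :=
    fun c i m hc h => by
      rw [ww_succ]
      have := mul_le_mul_of_nonneg_right (ww_anti h) hc
      nlinarith [mul_le_mul_of_nonneg_right (LL_le m) (mul_nonneg (ww_pos m).le hc),
        mul_nonneg (ww_pos m).le hc]
  have i2 : ∀ d x (n : Nd K), Adm n.1 → |U (d + 1) x n - U d x n - 0| ≤ ww n.2.2 * (1 / 2) ^ d :=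
    fun d x => by
      induction d with
      | zero =>
        intro n hn
        have := i1 1 x n hn
        rw [U0, sub_zero, pow_zero, mul_one, abs_le]
        constructor <;> linarith [this.1, this.2, ww_pos n.2.2]
      | succ d ih =>
        intro n hn
        rw [U1 (d + 1)]
        nth_rw 2 [U1 d]
        exact Ph_cmp hev hF cev hC hl (i1 _ x) (i1 _ x) hn (e := fun i => ww i * (1 / 2) ^ d)
          (fun m h _ => ih m h) fun m h => (ct _ _ _ (by positivity) h).trans_eq (by ring)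
  have i3 : ∀ d x v t c (n : Nd K), Adm n.1 → (∀ z ∈ n.1, |ev z v - t| ≤ c) →
      |U d (x + v) n - U d x n - t| ≤ (1 + (1 / 2) ^ n.2.2) * c := fun d x v t c => by
    induction d with
    | zero =>
      intro n hn h
      have c0 : 0 ≤ c := (abs_nonneg _).trans (h _ hn.2.some_mem)
      rw [U0, U0]
      exact (NN_lt hev hn.2 x v h).trans (le_mul_of_one_le_left c0
        (le_add_of_nonneg_right (by positivity)))
    | succ d ih =>
      intro n hn h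
      have c0 : 0 ≤ c := (abs_nonneg _).trans (h _ hn.2.some_mem)
      rw [U1, U1]
      refine Ph_cmp hev hF cev hC hl (i1 _ _) (i1 _ _) hn (e := fun i => (1 + (1 / 2) ^ i) * c)
        (fun m h1 h2 => ih m h1 fun z hz => h z (h2 hz)) fun m h => ?_
      rw [← mul_assoc]
      refine mul_le_mul_of_nonneg_right ?_ c0
      have a1 := half_anti h
      have a2 := half_anti (Nat.zero_le m)
      have a3 : (0 : ℝ) < (1 / 2) ^ m := by positivity
      unfold LL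
      rw [pow_succ]
      nlinarith
  have hd : ∀ x (n : Nd K), Adm n.1 → ∀ d, dist (U d x n) (U (d + 1) x n) ≤
      ww n.2.2 * (1 / 2) ^ d := fun x n hn d => by
    rw [dist_comm, Real.dist_eq]
    simpa using i2 d x n hn
  have : ∀ x (n : Nd K), ∃ a, Adm n.1 → Tendsto (fun d => U d x n) atTop (𝓝 a) := fun x n => by
    by_cases hn : Adm n.1
    · exact (cauchySeq_tendsto_of_complete (cauchySeq_of_le_geometric _ _ (by norm_num)
        (hd x n hn))).imp fun _ h _ => h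
    · exact ⟨0, fun e => absurd e hn⟩
  choose u hu using this
  have j1 : ∀ x, Inv ev x (u x) := fun x n hn =>
    ⟨ge_of_tendsto' (hu x n hn) fun d => (i1 d x n hn).1,
      le_of_tendsto' (hu x n hn) fun d => (i1 d x n hn).2⟩
  refine ⟨u, j1, fun x n hn => ?_, fun x v t c n hn h => le_of_tendsto'
    (((hu _ n hn).sub (hu x n hn)).sub_const t).abs fun d => i3 d x v t c n hn h⟩
  refine tendsto_nhds_unique ((tendsto_add_atTop_iff_nat 1).2 (hu x n hn))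
    (tendsto_iff_dist_tendsto_zero.2 (squeeze_zero (fun _ => dist_nonneg)
      (g := fun d => ww n.2.2 * (1 / 2) ^ d) (fun d => ?_) ?_))
  · rw [U1, Real.dist_eq, ← sub_zero (_ - _)]
    refine Ph_cmp hev hF cev hC hl (i1 _ x) (j1 x) hn (e := fun i => ww i * (2 * (1 / 2) ^ d))
      (fun m h _ => ?_) fun m h => (ct _ _ _ (by positivity) h).trans_eq (by ring)
    rw [sub_zero, ← Real.dist_eq]
    exact (dist_le_of_le_geometric_of_tendsto _ _ (by norm_num) (hd x m h) (hu x m h) d).trans_eq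
      (by ring)
  · simpa using (tendsto_pow_atTop_nhds_zero_of_lt_one (r := (1 / 2 : ℝ)) (by norm_num)
      (by norm_num)).const_mul (ww n.2.2)

end Pool.Agent.H.MP_0d212c
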