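import Pool.Agent.H.MP_0d212c.C

set_option autoImplicit false
open Set Filter Topology Function

namespace Pool.Agent.H.MP_0d212c

variable {K : Type} [TopologicalSpace K] {X : Type} [NormedAddCommGroup X] [NormedSpace ℝ X]

def Osc (ev : K → X →L[ℝ] ℝ) (small : ℕ → Set K → Prop) (H : Set X) : Prop :=
  ∀ (P : ℕ → Set K) (k : ℕ), (∀ j, Adm (P j)) → Antitone P → (∀ j, small (k + j) (P (j + 1))) →
    ∀ δ > 0, ∃ j, ∀ f ∈ P j, ∀ g ∈ P j, ∀ h ∈ H, |ev f h - ev g h| ≤ δ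

theorem main_M [CompactSpace K] [Nonempty K] (ev : K → X →L[ℝ] ℝ) (hev : ∀ z, ‖ev z‖ ≤ 1)
    (cev : ∀ x, Continuous fun z => ev z x) (small : ℕ → Set K → Prop)
    (hfr : ∀ k B, Adm B → ∃ U, IsOpen U ∧ (U ∩ B).Nonempty ∧ small k (closure (U ∩ B))) :
    ∃ M : X → ℝ, Lp M 2 ∧ (∀ x, NN ev univ x ≤ M x ∧ M x ≤ NN ev univ x + 1) ∧
      ∀ H, (∀ h ∈ H, ‖h‖ ≤ 1) → Osc ev small H → ∀ x0, ∀ δ > 0, Df H M x0 δ := by
  obtain ⟨C, hC, hK, hl⟩ := st_lip
  choose! Fm hF using fun k A => fam (small k) (hfr k) A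
  obtain ⟨u, u1, u2, u3⟩ := exists_u hev hF cev hC hl
  have u4 : ∀ x v t c (n : Nd K), Adm n.1 → (∀ z ∈ n.1, |ev z v - t| ≤ c) →
      |u (x + v) n - u x n - t| ≤ 2 * c := fun x v t c n hn h =>
    (u3 x v t c n hn h).trans (mul_le_mul_of_nonneg_right
      (by linarith [half_anti (Nat.zero_le n.2.2), pow_zero (1 / 2 : ℝ)])
      ((abs_nonneg _).trans (h _ hn.2.some_mem)))
  have u5 : ∀ n : Nd K, Adm n.1 → Lp (fun x => u x n) 2 := fun n hn x y => by
    simpa using u4 x (y - x) 0 _ n hn fun z _ => by simpa using ev_le hev z (y - x)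
  have uA : Adm (univ : Set K) := ⟨isClosed_univ, univ_nonempty⟩
  refine ⟨fun x => u x (univ, 0, 0), u5 _ uA, fun x => by simpa [ww] using u1 x (univ, 0, 0) uA,
    fun H hH hO x0 => ?_⟩
  have base : ∀ (n : Nd K) δ, Adm n.1 → (∀ f ∈ n.1, ∀ g ∈ n.1, ∀ h ∈ H, |ev f h - ev g h| ≤ δ) →
      Df H (fun x => u x n) x0 (2 * δ) := fun n δ hn h => by
    refine ⟨ev hn.2.some, .of_forall fun p v hv s e => ?_⟩
    rw [e, mul_assoc]
    refine u4 _ _ _ _ n hn fun z hz => ?_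
    rw [map_smul, smul_eq_mul, ← mul_sub, abs_mul, mul_comm]
    exact mul_le_mul_of_nonneg_right (h z hz _ hn.2.some_mem v hv) (abs_nonneg _)
  have two : ∀ n : Nd K, Adm n.1 → Df H (fun x => u x n) x0 2 := fun n hn =>
    ⟨0, .of_forall fun p v hv s e => by simpa using (u5 n hn).dir zero_le_two (hH v hv) e⟩
  have step : ∀ (n : Nd K) δ1 δ2 ε, Adm n.1 → 0 < ε → 0 ≤ δ1 + δ2 →
      (∀ j ∈ JJ Fm n, Df H (fun x => u x (j.1.1, n.2.1 + 1, j.2 + 1)) x0 δ1) →
      (∀ B m, Adm B → n.2.2 ≤ m → Df H (fun x => u x (B, n.2.1, m + 1)) x0 δ2) →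
      Df H (fun x => u x n) x0 (δ1 + (LL n.2.2 * (δ1 + δ2) + ε) + ε) := by
    intro n δ1 δ2 ε hn hε h0 h1 h2
    obtain ⟨j0, j1, j2, j3⟩ := top hev hF cev hC (u1 x0) hn
    have la : ∀ j ∈ JJ Fm n, Lp (fun x => aa (u x) n.2.1 j) 2 := fun j hj x y => by
      simpa [aa] using u5 (j.1.1, n.2.1 + 1, j.2 + 1) ((hF _ _ hn).1 _ hj.1).1 x y
    have ta := fun j (hj : j ∈ JJ Fm n) => (TT_adm hn (hF _ _ hn) hj.1).1
    rw [show (fun x => u x n) = _ from funext fun x => u2 x n hn]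
    refine Df.SS hH (N := NN ev n.1) (η := ww j0.2 / 16) la (fun j hj x y => ?_) (fun x y => ?_)
      (fun j _ x => (bb_mem _ _ _ _ _).1) (fun j hj x => (aa_le hev hF (u1 x) hn hj.1).1.trans
        (aa_le hev hF (u1 x) hn hj.1).2) j1 (by linarith [ww_pos j0.2]) (by rw [j2]; linarith)
      ?_ (fun j hj => (h1 j hj).sub_const _) (fun j hj => ?_) hε
    · refine (bb_sub hC hl _ _ j (t := 0) (e := 2 * ‖y - x‖) ?_ ?_).trans ?_
      · simpa using u5 (j.1.1, n.2.1 + 1, j.2 + 1) ((hF _ _ hn).1 _ hj.1).1 x y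
      · simpa using u5 (TT n.1 j, n.2.1, j.2 + 1) (ta j hj) x y
      · nlinarith [LL_le j.2, norm_nonneg (y - x)]
    · simpa using NN_lt hev hn.2 x (y - x) (t := 0) fun z _ => by
        simpa using ev_le hev z (y - x)
    · obtain ⟨M, hM⟩ := exists_pow_lt_of_lt_one (show 0 < ww j0.2 / 16 by linarith [ww_pos j0.2])
        (show (1 / 4 : ℝ) < 1 by norm_num)
      have fin : ∀ m, {p ∈ Fm n.2.1 n.1 | 0 < bb C (u x0) n.1 n.2.1 (p, m)}.Finite := fun m => by
        have k : ∀ p ∈ {p ∈ Fm n.2.1 n.1 | 0 < bb C (u x0) n.1 n.2.1 (p, m)}, ∀ B : Set K,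
            B.Nonempty → B ⊆ p.2 → 10 * C * (1 / 2) ^ m < NN ev p.1 x0 - NN ev B x0 := by
          intro p hp B b1 b2
          have e : p.2.Nonempty := b1.mono b2
          have c1 := hp.2
          unfold bb at c1
          have c2 := not_le.1 fun a => by
            rw [Real.smoothTransition.zero_of_nonpos a, mul_zero] at c1
            exact lt_irrefl _ c1
          simp only [cc, dd, TT, if_pos e] at c2
          rw [← sub_eq_add_neg, sub_pos, lt_inv_mul_iff₀ (by positivity), mul_one] at c2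
          linarith [(aa_le hev hF (u1 x0) hn (j := (p, m)) hp.1).1,
            (u1 x0 (p.2, n.2.1, m + 1) ⟨((hF _ _ hn).1 _ hp.1).2.2.2.1, e⟩).1,
            NN_mono hev b1 b2 x0]
        refine fin_sep (fun p => NN ev p.1 x0) (θ := 10 * C * (1 / 2) ^ m) (by positivity)
          (fun p hp => NN_abs hev ((hF _ _ hn).1 _ hp.1).1.2 x0) fun p hp q hq e => ?_
        rcases (hF _ _ hn).2.2 p hp.1 q hq.1 e with c | c
        · exact (k q hq _ ((hF _ _ hn).1 _ hp.1).1.2 c).trans_le ((le_abs_self _).trans_eq (abs_sub_comm _ _))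
        · exact (k p hp _ ((hF _ _ hn).1 _ hq.1).1.2 c).trans_le (le_abs_self _)
      refine ((finite_Iio M).biUnion fun m _ => (fin m).image fun p => (p, m)).subset ?_
      rintro ⟨p, m⟩ ⟨h1, h2⟩
      refine mem_iUnion₂.2 ⟨m, ?_, p, ⟨h1.1, lt_of_lt_of_le (by linarith [ww_pos j0.2]) h2⟩, rfl⟩
      by_contra c
      have := (h2.trans (bb_mem _ _ _ _ _).2).trans (ww_anti (not_lt.1 c))
      exact absurd hM (not_lt.2 this)
    · refine (Df.st hH (dd j) (la j hj) (u5 (TT n.1 j, n.2.1, j.2 + 1) (ta j hj))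
        ((h1 j hj).sub_const _) (h2 _ _ (ta j hj) hj.2) (ww_pos _).le (cc_le hC j).1 hK
        (cc_le hC j).2 hε).mono (add_le_add (mul_le_mul_of_nonneg_right ?_ h0) le_rfl)
      exact div_le_div_of_nonneg_right (half_anti hj.2) (by norm_num)
  have hp : ∀ i : ℕ, (0 : ℝ) < (1 / 2) ^ i := fun i => by positivity
  have ph2 : ∀ δ > 0, δ ≤ 1 → ∀ n : Nd K, Adm n.1 →
      Df H (fun x => u x n) x0 (δ + (1 / 2) ^ n.2.2) := by
    intro δ d0 d1 n0 h0
    by_contra h1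
    have st : ∀ n : Nd K, ∃ m : Nd K, Adm n.1 ∧ ¬ Df H (fun x => u x n) x0 (δ + (1 / 2) ^ n.2.2) →
        (Adm m.1 ∧ ¬ Df H (fun x => u x m) x0 (δ + (1 / 2) ^ m.2.2)) ∧ m.1 ⊆ n.1 ∧
          small n.2.1 m.1 ∧ m.2.1 = n.2.1 + 1 := fun n => by
      by_cases h : Adm n.1 ∧ ¬ Df H (fun x => u x n) x0 (δ + (1 / 2) ^ n.2.2)
      swap
      · exact ⟨n, fun e => absurd e h⟩
      by_contra c
      push Not at c
      refine h.2 ((step n (δ + (1 / 2) ^ (n.2.2 + 1)) 2 ((1 / 2) ^ n.2.2 / 20) h.1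
        (by positivity) (by positivity) (fun j hj => ?_) fun B m hB _ => two (B, _, _) hB).mono ?_)
      · have a := (hF _ _ h.1).1 _ hj.1
        by_contra e
        refine (c (j.1.1, n.2.1 + 1, j.2 + 1)).2 ⟨a.1, fun e' => e (e'.mono ?_)⟩ a.2.1 a.2.2.1 rfl
        exact add_le_add le_rfl (half_anti (Nat.succ_le_succ hj.2))
      · unfold LL
        rw [pow_succ]
        nlinarith [hp n.2.2, half_anti (Nat.zero_le n.2.2), pow_zero (1 / 2 : ℝ)]
    choose f hf using st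
    obtain ⟨z, e0, e1⟩ : ∃ z : ℕ → Nd K, z 0 = n0 ∧ ∀ j, z (j + 1) = f (z j) :=
      ⟨fun j => f^[j] n0, rfl, fun j => iterate_succ_apply' _ _ _⟩
    have z1 : ∀ j, Adm (z j).1 ∧ ¬ Df H (fun x => u x (z j)) x0 (δ + (1 / 2) ^ (z j).2.2) :=
      fun j => by
        induction j with
        | zero => exact e0 ▸ ⟨h0, h1⟩
        | succ j ih => exact e1 j ▸ (hf _ ih).1
    have z2 : ∀ j, (z j).2.1 = n0.2.1 + j := fun j => by
      induction j with
      | zero => rw [e0]; rfl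
      | succ j ih => rw [e1, (hf _ (z1 j)).2.2.2, ih]; rfl
    obtain ⟨j, hj⟩ := hO (fun j => (z j).1) n0.2.1 (fun j => (z1 j).1)
      (antitone_nat_of_succ_le fun j => e1 j ▸ (hf _ (z1 j)).2.1)
      (fun j => by rw [← z2, e1]; exact (hf _ (z1 j)).2.2.1) (δ / 2) (half_pos d0)
    exact (z1 j).2 ((base _ _ (z1 j).1 hj).mono (by linarith [hp (z j).2.2]))
  have ph1 : ∀ δ > 0, ∀ j i, (∀ n : Nd K, Adm n.1 → i + j ≤ n.2.2 → Df H (fun x => u x n) x0 δ) →
      ∀ n : Nd K, Adm n.1 → i ≤ n.2.2 → Df H (fun x => u x n) x0 (δ * (1 + (1 / 2) ^ i)) := by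
    intro δ d0 j
    induction j with
    | zero => exact fun i h n h1 h2 => (h n h1 h2).mono (by nlinarith [hp i])
    | succ j ih =>
      intro i h n h1 h2
      have := ih (i + 1) fun n h1 h2 => h n h1 (by omega)
      refine (step n _ _ (δ * (1 / 2) ^ i / 10) h1 (by positivity) (by positivity)
        (fun j hj => this (j.1.1, _, _) ((hF _ _ h1).1 _ hj.1).1
          (Nat.succ_le_succ (h2.trans hj.2)))
        fun B m hB hm => this (B, _, _) hB (Nat.succ_le_succ (h2.trans hm))).mono ?_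
      unfold LL
      rw [pow_succ]
      have a1 := mul_le_mul_of_nonneg_left (half_anti h2) d0.le
      have a2 := half_anti (Nat.zero_le i)
      have a3 := mul_pos d0 (hp n.2.2)
      rw [pow_zero] at a2
      nlinarith [hp i, mul_le_mul_of_nonneg_left a2 a3.le]
  intro δ d0
  obtain ⟨j, hj⟩ := exists_pow_lt_of_lt_one (show 0 < δ / 4 by positivity)
    (show (1 / 2 : ℝ) < 1 by norm_num)
  refine (ph1 (2 * (1 / 2) ^ j) (by positivity) j 0 (fun n h1 h2 =>
    (ph2 _ (hp j) ((half_anti (Nat.zero_le j)).trans_eq (pow_zero _)) n h1).mono ?_)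
    (univ, 0, 0) uA le_rfl).mono (by rw [pow_zero]; linarith)
  linarith [half_anti (show j ≤ n.2.2 by omega)]

/-- The dual unit ball with the weak-star topology. -/
abbrev DB (X : Type) [NormedAddCommGroup X] [NormedSpace ℝ X] : Type :=
  {f : WeakDual ℝ X // ‖WeakDual.toStrongDual f‖ ≤ 1}

instance : CompactSpace (DB X) := by
  refine isCompact_iff_compactSpace.1 ?_
  convert WeakDual.isCompact_closedBall (0 : StrongDual ℝ X) 1 using 1
  ext f
  exact mem_closedBall_zero_iff.symm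

instance : Nonempty (DB X) := ⟨⟨0, by simp⟩⟩

noncomputable def evB (f : DB X) : X →L[ℝ] ℝ := WeakDual.toStrongDual f.1

theorem evB_cont (x : X) : Continuous fun f : DB X => evB f x :=
  (WeakDual.eval_continuous x).comp continuous_subtype_val

theorem NN_univ (x : X) : NN evB univ x = ‖x‖ := by
  refine le_antisymm (NN_le _ univ_nonempty fun z _ => (abs_le.1 (ev_le (fun z => z.2) z x)).2) ?_
  obtain ⟨g, g1, g2⟩ := exists_dual_vector'' ℝ x
  exact g2.symm.trans_le (le_NN (ev := evB) (fun z => z.2)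
    (z := ⟨StrongDual.toWeakDual g, g1⟩) (mem_univ _) x)

omit [NormedSpace ℝ X] in
theorem bump_of (M : X → ℝ) (h1 : Lp M 2) (h2 : ∀ x, ‖x‖ ≤ M x ∧ M x ≤ ‖x‖ + 1) :
    (∃ K, LipschitzWith K fun x => Real.smoothTransition (2 - M x)) ∧
      (∃ x, Real.smoothTransition (2 - M x) ≠ 0) ∧
      Bornology.IsBounded (support fun x => Real.smoothTransition (2 - M x)) := by
  obtain ⟨C, c1, -, c2⟩ := st_lip
  refine ⟨⟨_, Lp.lip (C := C * 2) fun x y => (c2 _ _).trans ?_⟩, ⟨0, ?_⟩,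
    (Metric.isBounded_closedBall (x := 0) (r := 2)).subset fun x hx => ?_⟩
  · rw [sub_sub_sub_cancel_left, abs_sub_comm, mul_assoc]
    exact mul_le_mul_of_nonneg_left (h1 x y) (by linarith)
  · rw [Real.smoothTransition.one_of_one_le (by have := (h2 0).2; rw [norm_zero] at this; linarith)]
    exact one_ne_zero
  · rw [mem_closedBall_zero_iff]
    by_contra c
    exact hx (Real.smoothTransition.zero_of_nonpos (by linarith [(h2 x).1]))

/-- Norm fragmentability of the dual ball. -/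
def Frag (X : Type) [NormedAddCommGroup X] [NormedSpace ℝ X] : Prop :=
  ∀ ε > 0, ∀ B : Set (DB X), Adm B → ∃ U, IsOpen U ∧ (U ∩ B).Nonempty ∧
    ∀ f ∈ U ∩ B, ∀ g ∈ U ∩ B, ‖evB f - evB g‖ ≤ ε

theorem diam_closure {S : Set (DB X)} {ε : ℝ} (h : ∀ f ∈ S, ∀ g ∈ S, ‖evB f - evB g‖ ≤ ε) :
    ∀ f ∈ closure S, ∀ g ∈ closure S, ∀ x, |evB f x - evB g x| ≤ ε * ‖x‖ := by
  intro f hf g hg x
  have c := evB_cont x
  refine closure_minimal (t := {f | |evB f x - evB g x| ≤ ε * ‖x‖}) (fun f hf => ?_)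
    (isClosed_le (by fun_prop) continuous_const) hf
  refine closure_minimal (t := {g | |evB f x - evB g x| ≤ ε * ‖x‖}) (fun g hg => ?_)
    (isClosed_le (by fun_prop) continuous_const) hg
  exact (evB f - evB g).le_of_opNorm_le (h f hf g hg) x

theorem Frag.c1 (h : Frag X) : ∃ M : X → ℝ, ContDiff ℝ 1 M ∧ Lp M 2 ∧
    ∀ x, ‖x‖ ≤ M x ∧ M x ≤ ‖x‖ + 1 := by
  obtain ⟨M, m1, m2, m3⟩ := main_M (K := DB X) evB (fun z => z.2) evB_cont
    (fun k P => ∀ f ∈ P, ∀ g ∈ P, ∀ x, |evB f x - evB g x| ≤ (1 / 2) ^ k * ‖x‖) fun k B hB =>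
      (h _ (by positivity) B hB).imp fun U hU => ⟨hU.1, hU.2.1, diam_closure hU.2.2⟩
  refine ⟨M, c1_of_strict fun x => strict_of_Df (m3 _ (fun h => mem_closedBall_zero_iff.1) ?_ x),
    m1, fun x => NN_univ x ▸ m2 x⟩
  intro P k _ _ hP δ hδ
  obtain ⟨j, hj⟩ := exists_pow_lt_of_lt_one hδ (show (1 / 2 : ℝ) < 1 by norm_num)
  refine ⟨j + 1, fun f hf g hg v hv => (hP j f hf g hg v).trans ?_⟩
  exact (mul_le_of_le_one_right (by positivity) (mem_closedBall_zero_iff.1 hv)).trans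
    ((half_anti (Nat.le_add_left j k)).trans hj.le)

theorem Frag.bump (h : Frag X) : ∃ g : X → ℝ, ContDiff ℝ 1 g ∧ (∃ K, LipschitzWith K g) ∧
    (∃ x, g x ≠ 0) ∧ Bornology.IsBounded (support g) := by
  obtain ⟨M, m1, m2, m3⟩ := h.c1
  exact ⟨_, Real.smoothTransition.contDiff.comp (contDiff_const.sub m1), bump_of M m2 m3⟩

end Pool.Agent.H.MP_0d212c
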