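import Pool.Agent.H.MP_0d212c.D
import Pool.Agent.Lib.helper23.Eke

set_option autoImplicit false
open Set Filter Topology Function

namespace Pool.Agent.H.MP_0d212c

variable {X : Type} [NormedAddCommGroup X] [NormedSpace ℝ X]

theorem frag_of_asplund (h : ∀ F : Submodule ℝ X, TopologicalSpace.IsSeparable (F : Set X) →
    TopologicalSpace.SeparableSpace (F →L[ℝ] ℝ)) : Frag X := by
  intro ε hε B hB
  by_contra hn
  push Not at hn
  let G : Set (DB X) → Prop := fun C => IsClosed C ∧ ∃ U, IsOpen U ∧ (U ∩ B).Nonempty ∧ U ∩ B ⊆ C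
  have sp : ∀ C : {C // G C}, ∃ (x : X) (m : ℝ) (D : Bool → {C // G C}), ‖x‖ ≤ 1 ∧
      (∀ b, (D b).1 ⊆ C.1) ∧ (∀ f ∈ (D true).1, m + ε / 2 ≤ evB f x) ∧
      ∀ f ∈ (D false).1, evB f x ≤ m - ε / 2 := by
    rintro ⟨C, c1, U, u1, u2, u3⟩
    obtain ⟨f, f1, g, g1, e⟩ := hn U u1 u2
    obtain ⟨x, x1, x2⟩ : ∃ x : X, ‖x‖ ≤ 1 ∧ ε < evB f x - evB g x := by
      obtain ⟨v, v1, v2⟩ := (evB f - evB g).exists_lt_apply_of_lt_opNorm e
      rcases lt_abs.1 v2 with a | a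
      · exact ⟨v, v1.le, a⟩
      · exact ⟨-v, by simpa using v1.le, by rwa [← map_neg] at a⟩
    have c := evB_cont x
    obtain ⟨m, hm⟩ : ∃ m, m = (evB f x + evB g x) / 2 := ⟨_, rfl⟩
    have g0 : G (C ∩ {k | evB k x ≤ m - ε / 2}) := ⟨c1.inter (isClosed_le c continuous_const),
      U ∩ {k | evB k x < m - ε / 2}, u1.inter (isOpen_lt c continuous_const),
      ⟨g, ⟨g1.1, show evB g x < m - ε / 2 by linarith⟩, g1.2⟩,
      fun k hk => ⟨u3 ⟨hk.1.1, hk.2⟩, le_of_lt (show evB k x < m - ε / 2 from hk.1.2)⟩⟩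
    have g2 : G (C ∩ {k | m + ε / 2 ≤ evB k x}) := ⟨c1.inter (isClosed_le continuous_const c),
      U ∩ {k | m + ε / 2 < evB k x}, u1.inter (isOpen_lt continuous_const c),
      ⟨f, ⟨f1.1, show m + ε / 2 < evB f x by linarith⟩, f1.2⟩,
      fun k hk => ⟨u3 ⟨hk.1.1, hk.2⟩, le_of_lt (show m + ε / 2 < evB k x from hk.1.2)⟩⟩
    exact ⟨x, m, fun b => cond b ⟨_, g2⟩ ⟨_, g0⟩, x1,
      fun b => by cases b <;> exact inter_subset_left, fun k hk => hk.2, fun k hk => hk.2⟩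
  choose x m D d1 d2 d3 d4 using sp
  obtain ⟨P, p1⟩ : ∃ P : List Bool → {C // G C}, ∀ b l, P (b :: l) = D (P l) b :=
    ⟨fun l => l.rec ⟨univ, isClosed_univ, univ, isOpen_univ, by simpa using hB.2, subset_univ _⟩
      fun b _ C => D C b, fun _ _ => rfl⟩
  obtain ⟨pl, l0, l1⟩ : ∃ pl : (ℕ → Bool) → ℕ → List Bool, (∀ σ, pl σ 0 = []) ∧
      ∀ σ n, pl σ (n + 1) = σ n :: pl σ n :=
    ⟨fun σ n => n.rec [] fun n l => σ n :: l, fun _ => rfl, fun _ _ => rfl⟩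
  have ex : ∀ σ, ∃ f, ∀ n, f ∈ (P (pl σ n)).1 := fun σ =>
    (IsCompact.nonempty_iInter_of_sequence_nonempty_isCompact_isClosed
      (fun n => (P (pl σ n)).1) (fun n => by rw [l1, p1]; exact d2 _ _)
      (fun n => by
        obtain ⟨-, U, -, u2, u3⟩ := (P (pl σ n)).2
        exact u2.mono u3) (P (pl σ 0)).2.1.isCompact fun n => (P (pl σ n)).2.1).imp
      fun f hf => mem_iInter.1 hf
  choose f hf using ex
  let F := Submodule.span ℝ (range fun l => x (P l))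
  have := h F (countable_range _).isSeparable.span
  have key : ∀ σ τ n, (∀ k < n, σ k = τ k) → σ n = true → τ n = false →
      ε ≤ ‖(evB (f σ)).comp F.subtypeL - (evB (f τ)).comp F.subtypeL‖ := fun σ τ n h1 h2 h3 => by
    have e : pl σ n = pl τ n := by
      clear h2 h3
      induction n with
      | zero => rw [l0, l0]
      | succ n ih => rw [l1, l1, h1 n (Nat.lt_succ_self n),
          ih fun k hk => h1 k (hk.trans (Nat.lt_succ_self n))]
    have a1 := hf σ (n + 1)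
    have a2 := hf τ (n + 1)
    rw [l1, p1, h2] at a1
    rw [l1, p1, h3, ← e] at a2
    have a3 := ((evB (f σ)).comp F.subtypeL - (evB (f τ)).comp F.subtypeL).le_opNorm
      ⟨x (P (pl σ n)), Submodule.subset_span ⟨_, rfl⟩⟩
    have a4 := (le_abs_self _).trans (a3.trans (mul_le_of_le_one_right (norm_nonneg _) (d1 _)))
    change evB (f σ) (x (P (pl σ n))) - evB (f τ) (x (P (pl σ n))) ≤ _ at a4
    linarith [d3 _ _ a1, d4 _ _ a2]
  have hc : Countable (ℕ → Bool) := Pairwise.countable_of_isOpen_disjoint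
    (s := fun σ => Metric.ball ((evB (f σ)).comp F.subtypeL) (ε / 2)) (fun σ τ e => by
      refine Metric.ball_disjoint_ball ?_
      classical
      rw [add_halves]
      refine le_of_le_of_eq ?_ (dist_eq_norm ((evB (f σ)).comp F.subtypeL)
        ((evB (f τ)).comp F.subtypeL)).symm
      have n1 := Nat.find_spec (ne_iff.1 e)
      have n2 : ∀ k < Nat.find (ne_iff.1 e), σ k = τ k := fun k hk =>
        not_not.1 (Nat.find_min (ne_iff.1 e) hk)
      rcases c : σ (Nat.find (ne_iff.1 e)) with _ | _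
      · exact (key τ σ _ (fun k hk => (n2 k hk).symm) (by simpa [c] using n1.symm) c).trans_eq
          (norm_sub_rev ((evB (f τ)).comp F.subtypeL) ((evB (f σ)).comp F.subtypeL))
      · exact key σ τ _ n2 c (by simpa [c] using n1.symm))
    (fun _ => Metric.isOpen_ball) fun _ => Metric.nonempty_ball.2 (half_pos hε)
  obtain ⟨e, he⟩ := exists_surjective_nat (ℕ → Bool)
  obtain ⟨n, hn⟩ := he fun n => !e n n
  simpa using congrFun hn n

theorem super [CompleteSpace X] {b σ : X → ℝ} (h1 : Differentiable ℝ b) (h2 : ∃ x, b x ≠ 0)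
    (h3 : Bornology.IsBounded (support b)) {C : ℝ} (hσ : Lp σ C) {ε : ℝ} (hε : 0 < ε) :
    ∃ (e : X) (ξ : X →L[ℝ] ℝ) (δ : ℝ), 0 < δ ∧
      ∀ h, ‖h‖ ≤ δ → σ (e + h) ≤ σ e + ξ h + ε * ‖h‖ := by
  obtain ⟨x0, h2⟩ := h2
  obtain ⟨R, hR⟩ := h3.exists_norm_le
  obtain ⟨β, hβ⟩ : ∃ β : X → ℝ, ∀ x, β x = b x ^ 2 / (1 + b x ^ 2) := ⟨_, fun _ => rfl⟩
  have b1 : Differentiable ℝ β := by
    rw [show β = _ from funext hβ]
    exact (show Differentiable ℝ fun t : ℝ => t ^ 2 / (1 + t ^ 2) by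
      fun_prop (disch := intro t; positivity)).comp h1
  have b2 : ∀ x, 0 ≤ β x ∧ β x ≤ 1 := fun x => by
    rw [hβ]
    exact ⟨by positivity, (div_le_one (by positivity)).2 (by linarith)⟩
  have g0 : 0 < Real.exp (σ x0) * β x0 := by rw [hβ]; positivity
  obtain ⟨y, y1, y2⟩ := Lib.helper23.Eke.ekeland (fun x => Real.exp (σ x) * β x)
    ((Real.continuous_exp.comp hσ.lip.continuous).mul b1.continuous)
    (B := Real.exp (σ 0 + |C| * R)) (fun v => by
      by_cases e : b v = 0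
      · simp [hβ, e, Real.exp_nonneg]
      · refine (mul_le_of_le_one_right (Real.exp_nonneg _) (b2 v).2).trans (Real.exp_le_exp.2 ?_)
        have := (le_abs_self _).trans (hσ 0 v)
        rw [sub_zero] at this
        linarith [mul_le_mul (le_abs_self C) (hR v e) (norm_nonneg _) (abs_nonneg C)]) x0
    (k := ε / 2 * (Real.exp (σ x0) * β x0)) (by positivity)
  have y3 : Real.exp (σ x0) * β x0 ≤ Real.exp (σ y) * β y := by
    linarith [mul_nonneg (show 0 ≤ ε / 2 * (Real.exp (σ x0) * β x0) by positivity)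
      (dist_nonneg (x := y) (y := x0))]
  have y4 : 0 < β y := (mul_pos_iff_of_pos_left (Real.exp_pos _)).1 (g0.trans_le y3)
  have d := (b1 y).hasFDerivAt.log y4.ne'
  obtain ⟨δ, d0, d1⟩ := Metric.eventually_nhds_iff_ball.1
    (((hasFDerivAt_iff_isLittleO_nhds_zero.1 d).bound (half_pos hε)).and
      ((show Tendsto (fun h => β (y + h)) (𝓝 0) (𝓝 (β y)) from
        Continuous.tendsto' (b1.continuous.comp (by fun_prop)) _ _ (by simp)).eventually
          (lt_mem_nhds y4)))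
  refine ⟨y, -((β y)⁻¹ • fderiv ℝ β y), δ / 2, half_pos d0, fun h hh => ?_⟩
  obtain ⟨a1, a2⟩ := d1 h (by rw [mem_ball_zero_iff]; linarith)
  have a3 := Real.log_le_sub_one_of_pos (div_pos (mul_pos (Real.exp_pos (σ (y + h))) a2)
    (g0.trans_le y3))
  rw [Real.log_div (by positivity) (by positivity), Real.log_mul (by positivity) a2.ne',
    Real.log_mul (by positivity) y4.ne', Real.log_exp, Real.log_exp] at a3
  have a4 : Real.exp (σ (y + h)) * β (y + h) / (Real.exp (σ y) * β y) ≤ 1 + ε / 2 * ‖h‖ := by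
    rw [div_le_iff₀ (g0.trans_le y3)]
    have := y2 (y + h)
    rw [dist_eq_norm, add_sub_cancel_left] at this
    nlinarith [mul_le_mul_of_nonneg_left y3 (show 0 ≤ ε / 2 * ‖h‖ by positivity)]
  rw [neg_apply]
  linarith [(abs_le.1 a1).1]

/-- Weak-star dentability of the subsets of the dual ball. -/
def Dent (Y : Type) [NormedAddCommGroup Y] [NormedSpace ℝ Y] : Prop :=
  ∀ ε > 0, ∀ A : Set (Y →L[ℝ] ℝ), A.Nonempty → (∀ a ∈ A, ‖a‖ ≤ 1) → ∃ (y : Y) (α : ℝ),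
    (∃ a ∈ A, α < a y) ∧ ∀ a ∈ A, ∀ a' ∈ A, α < a y → α < a' y → ‖a - a'‖ ≤ ε

theorem Dent.frag (h : Dent X) : Frag X := fun ε hε B hB => by
  obtain ⟨y, α, ⟨_, ⟨f, f1, rfl⟩, f2⟩, h2⟩ := h ε hε (evB '' B) (hB.2.image _) (by
    rintro _ ⟨f, -, rfl⟩
    exact f.2)
  exact ⟨{f | α < evB f y}, isOpen_lt continuous_const (evB_cont y), ⟨f, f2, f1⟩,
    fun f hf g hg => h2 _ ⟨f, hf.2, rfl⟩ _ ⟨g, hg.2, rfl⟩ hf.1 hg.1⟩

theorem dent_of_quot [CompleteSpace X] {Y : Type} [NormedAddCommGroup Y] [NormedSpace ℝ Y]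
    {b : X → ℝ} (h1 : Differentiable ℝ b) (h2 : ∃ x, b x ≠ 0)
    (h3 : Bornology.IsBounded (support b)) {f : X → Y} {L : NNReal} (hf : LipschitzWith L f)
    {c : ℝ} (hc : 0 < c) (hq : ∀ x r, 0 < r → Metric.ball (f x) (c * r) ⊆ f '' Metric.ball x r) :
    Dent Y := by
  intro ε' hε' A hA hA1
  obtain ⟨ε, hε, he⟩ : ∃ ε > 0, ε' = 12 * ε / c := ⟨ε' * c / 12, by positivity, by field_simp⟩
  have l1 : ∀ a ∈ A, ∀ x y, a (f y) - a (f x) ≤ L * ‖y - x‖ := fun a ha x y => by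
    rw [← map_sub]
    refine (le_abs_self _).trans ((a.le_of_opNorm_le (hA1 a ha) _).trans ?_)
    rw [one_mul]
    exact hf.norm_sub_le y x
  obtain ⟨σ, s1, s2⟩ : ∃ σ : X → ℝ,
      (∀ v, ∀ a ∈ A, ∀ x, ∀ t > 0, a (f (x + t • v)) - a (f x) ≤ t * σ v) ∧
      ∀ v r, r < σ v → ∃ a ∈ A, ∃ x, ∃ t > 0, t * r < a (f (x + t • v)) - a (f x) := by
    refine ⟨fun v => sSup {r | ∃ a ∈ A, ∃ x, ∃ t : ℝ, 0 < t ∧
      r = t⁻¹ * (a (f (x + t • v)) - a (f x))}, fun v a ha x t ht => ?_, fun v r hr => ?_⟩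
    · rw [← inv_mul_le_iff₀ ht]
      refine le_csSup ⟨L * ‖v‖, ?_⟩ ⟨a, ha, x, t, ht, rfl⟩
      rintro _ ⟨a, ha, x, t, ht, rfl⟩
      have := l1 a ha x (x + t • v)
      rw [add_sub_cancel_left, norm_smul, Real.norm_of_nonneg ht.le] at this
      rw [inv_mul_le_iff₀ ht]
      linarith
    · obtain ⟨_, ⟨a, ha, x, t, ht, rfl⟩, h⟩ := exists_lt_of_lt_csSup
        (s := {r | ∃ a ∈ A, ∃ x, ∃ t : ℝ, 0 < t ∧ r = t⁻¹ * (a (f (x + t • v)) - a (f x))})
        ⟨_, hA.some, hA.some_mem, 0, 1, one_pos, rfl⟩ hr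
      exact ⟨a, ha, x, t, ht, (lt_inv_mul_iff₀ ht).1 h⟩
  have s3 : ∀ v w, σ w ≤ σ v + L * ‖w - v‖ := fun v w => by
    by_contra h
    obtain ⟨a, ha, x, t, ht, e⟩ := s2 w _ (not_le.1 h)
    have a1 := l1 a ha (x + t • v) (x + t • w)
    rw [add_sub_add_left_eq_sub, ← smul_sub, norm_smul, Real.norm_of_nonneg ht.le] at a1
    linarith [s1 v a ha x t ht]
  obtain ⟨e, ξ, δ, d0, d1⟩ := super h1 h2 h3 (σ := σ) (C := L) (fun v w => abs_le.2
    ⟨by rw [norm_sub_rev]; linarith [s3 w v], by linarith [s3 v w]⟩) hε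
  obtain ⟨a0, a1, x, t, ht, a2⟩ := s2 e (σ e - ε * δ) (by linarith [mul_pos hε d0])
  have t2 := half_pos ht
  have key : ∀ a ∈ A, t * (σ e - ε * δ) < a (f (x + t • e) - f x) → ∀ h, ‖h‖ ≤ δ * (t / 2) →
      |a (f (x + (t / 2) • e + h) - f (x + (t / 2) • e)) - ξ h| ≤ 3 * (ε * δ * (t / 2)) := by
    intro a ha b0 h hh
    have n1 : ‖(t / 2)⁻¹ • h‖ ≤ δ := by
      rwa [norm_smul, Real.norm_of_nonneg (inv_pos.2 t2).le, inv_mul_le_iff₀ t2, mul_comm]
    have b1 := s1 e a ha x _ t2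
    have b2 := s1 e a ha (x + (t / 2) • e) _ t2
    have b3 := s1 (e + (t / 2)⁻¹ • h) a ha x _ t2
    have b4 := s1 (e + -((t / 2)⁻¹ • h)) a ha (x + (t / 2) • e + h) _ t2
    have b5 := mul_le_mul_of_nonneg_left ((d1 _ n1).trans
      (add_le_add le_rfl (mul_le_mul_of_nonneg_left n1 hε.le))) t2.le
    have n2 : ‖-((t / 2)⁻¹ • h)‖ ≤ δ := by rwa [norm_neg]
    have b6 := mul_le_mul_of_nonneg_left ((d1 _ n2).trans
      (add_le_add le_rfl (mul_le_mul_of_nonneg_left n2 hε.le))) t2.le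
    rw [add_assoc, ← add_smul, add_halves] at b2
    rw [smul_add, smul_inv_smul₀ t2.ne', ← add_assoc] at b3
    rw [show x + (t / 2) • e + h + (t / 2) • (e + -((t / 2)⁻¹ • h)) = x + t • e by
      rw [smul_add, smul_neg, smul_inv_smul₀ t2.ne']; module] at b4
    rw [map_neg] at b6
    rw [map_smul, smul_eq_mul, mul_add, mul_add] at b5 b6
    rw [mul_neg] at b6
    rw [mul_inv_cancel_left₀ t2.ne'] at b5 b6
    rw [map_sub] at b0 ⊢
    exact abs_le.2 ⟨by linarith, by linarith⟩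
  refine ⟨f (x + t • e) - f x, t * (σ e - ε * δ), ⟨a0, a1, by rwa [map_sub]⟩,
    fun a ha a' ha' c1 c2 => ContinuousLinearMap.opNorm_le_of_unit_norm hε'.le fun y hy => ?_⟩
  have r0 : 0 < c * (δ * (t / 2)) := by positivity
  obtain ⟨z, z1, z2⟩ := hq (x + (t / 2) • e) (δ * (t / 2)) (by positivity)
    (show f (x + (t / 2) • e) + (c * (δ * (t / 2)) / 2) • y ∈ _ by
      rw [mem_ball_iff_norm, add_sub_cancel_left, norm_smul, hy,
        Real.norm_of_nonneg (half_pos r0).le]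
      linarith)
  have k1 := key a ha c1 _ (mem_ball_iff_norm.1 z1).le
  have k2 := key a' ha' c2 _ (mem_ball_iff_norm.1 z1).le
  rw [add_sub_cancel, z2, add_sub_cancel_left, map_smul, smul_eq_mul, abs_le] at k1 k2
  rw [he, sub_apply, Real.norm_eq_abs, le_div_iff₀ hc, ← mul_le_mul_iff_left₀
    (show 0 < δ * (t / 2) / 2 by positivity)]
  rcases abs_cases (a y - a' y) with e | e <;> rw [e.1] <;> linarith [k1.1, k1.2, k2.1, k2.2]

theorem dent_of_bump [CompleteSpace X] {b : X → ℝ} (h1 : Differentiable ℝ b) (h2 : ∃ x, b x ≠ 0)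
    (h3 : Bornology.IsBounded (support b)) : Dent X :=
  dent_of_quot h1 h2 h3 LipschitzWith.id one_pos fun x r _ => by simp

theorem irr {A G : Type} [TopologicalSpace A] [TopologicalSpace G] [CompactSpace A]
    [CompactSpace G] [T1Space A] {Z : Set (A × G)} (hZ : IsClosed Z) :
    ∃ E, IsClosed E ∧ E ⊆ Z ∧ Prod.fst '' Z ⊆ Prod.fst '' E ∧
      ∀ E' ⊆ E, IsClosed E' → Prod.fst '' Z ⊆ Prod.fst '' E' → E ⊆ E' := by
  obtain ⟨E, e1, e2⟩ := zorn_superset_nonempty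
    {E | IsClosed E ∧ Prod.fst '' Z ⊆ Prod.fst '' E} (fun c c1 c2 c3 => by
      refine ⟨⋂₀ c, ⟨isClosed_sInter fun E hE => (c1 hE).1, fun a ha => ?_⟩,
        fun E hE => sInter_subset_of_mem hE⟩
      have := c3.to_subtype
      obtain ⟨p, hp⟩ := IsCompact.nonempty_iInter_of_directed_nonempty_isCompact_isClosed
        (fun E : c => E.1 ∩ Prod.fst ⁻¹' {a}) (fun E F => by
          rcases c2.total E.2 F.2 with e | e
          · exact ⟨E, subset_rfl, inter_subset_inter_left _ e⟩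
          · exact ⟨F, inter_subset_inter_left _ e, subset_rfl⟩)
        (fun E => (c1 E.2).2 ha)
        (fun E => ((c1 E.2).1.inter (isClosed_singleton.preimage continuous_fst)).isCompact)
        fun E => (c1 E.2).1.inter (isClosed_singleton.preimage continuous_fst)
      rw [mem_iInter] at hp
      exact ⟨p, fun E hE => (hp ⟨E, hE⟩).1, (hp (Classical.arbitrary c)).2⟩) Z ⟨hZ, subset_rfl⟩
  exact ⟨E, e2.prop.1, e1, e2.prop.2, fun E' h1 h2 h3 => e2.le_of_le ⟨h2, h3⟩ h1⟩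

theorem frag_three (Y : Submodule ℝ X) [IsClosed (Y : Set X)] (h1 : Dent Y) (h2 : Dent (X ⧸ Y)) :
    Frag X := by
  intro ε' hε' B hB
  obtain ⟨ε, hε, he, e1⟩ : ∃ ε > 0, 5 * ε ≤ ε' ∧ ε ≤ 1 :=
    ⟨min (ε' / 5) 1, by positivity, by linarith [min_le_left (ε' / 5) 1], min_le_right _ _⟩
  obtain ⟨y, α, ⟨_, ⟨f0, f1, rfl⟩, f2⟩, h3⟩ := h1 ε hε
    ((fun f => (evB f).comp Y.subtypeL) '' B) (hB.2.image _) (by
      rintro _ ⟨f, -, rfl⟩
      exact ContinuousLinearMap.opNorm_le_bound _ zero_le_one fun y =>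
        (evB f).le_of_opNorm_le f.2 y.1)
  obtain ⟨A, hA⟩ : ∃ A, A = {f | α < evB f y.1} ∩ B := ⟨_, rfl⟩
  have a0 : f0 ∈ A := hA ▸ ⟨f2, f1⟩
  have a1 : ∀ f ∈ closure A, ∀ v : Y, |evB f v.1 - evB f0 v.1| ≤ ε * ‖v‖ := fun f hf v => by
    have c := evB_cont v.1
    refine closure_minimal (t := {f | |evB f v.1 - evB f0 v.1| ≤ ε * ‖v‖}) (fun f hf => ?_)
      (isClosed_le (c.sub continuous_const).abs continuous_const) hf
    rw [hA] at hf
    exact ContinuousLinearMap.le_of_opNorm_le _ (h3 _ ⟨f, hf.2, rfl⟩ _ ⟨f0, f1, rfl⟩ hf.1 f2) v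
  obtain ⟨Z, hZ⟩ : ∃ Z : Set (DB X × DB (X ⧸ Y)), Z = {p | p.1 ∈ closure A ∧
    ∀ x, |evB p.1 x - evB f0 x - 3 * evB p.2 (Y.mkQ x)| ≤ ε * ‖x‖} := ⟨_, rfl⟩
  have z1 : IsClosed Z := by
    rw [hZ]
    refine (isClosed_closure.preimage continuous_fst).inter ?_
    change IsClosed {p : DB X × DB (X ⧸ Y) |
      ∀ x, |evB p.1 x - evB f0 x - 3 * evB p.2 (Y.mkQ x)| ≤ ε * ‖x‖}
    rw [ofPred_forall]
    exact isClosed_iInter fun x => isClosed_le (((((evB_cont x).comp continuous_fst).sub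
      continuous_const).sub (continuous_const.mul ((evB_cont (Y.mkQ x)).comp
        continuous_snd))).abs) continuous_const
  have z2 : closure A ⊆ Prod.fst '' Z := fun f hf => by
    obtain ⟨g, g1, g2⟩ := exists_extension_norm_eq Y ((evB f - evB f0).comp Y.subtypeL)
    have g3 : ‖g‖ ≤ ε := g2.trans_le (ContinuousLinearMap.opNorm_le_bound _ hε.le (a1 f hf))
    have g4 : ‖evB f - evB f0 - g‖ ≤ 3 := by
      have := norm_sub_le (evB f) (evB f0)
      have b1 : ‖evB f‖ ≤ 1 := f.2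
      have b2 : ‖evB f0‖ ≤ 1 := f0.2
      linarith [norm_sub_le (evB f - evB f0) g]
    have g5 : Y ≤ (evB f - evB f0 - g).ker := fun v hv => sub_eq_zero.2 (g1 ⟨v, hv⟩).symm
    refine ⟨(f, ⟨StrongDual.toWeakDual ((3 : ℝ)⁻¹ • Y.liftQL (evB f - evB f0 - g) g5), ?_⟩),
      ?_, rfl⟩
    · refine ContinuousLinearMap.opNorm_le_bound _ zero_le_one fun z =>
        le_of_forall_pos_le_add fun η hη => ?_
      obtain ⟨x, rfl, hx⟩ := Submodule.Quotient.norm_mk_lt z hη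
      change |(3 : ℝ)⁻¹ * (evB f - evB f0 - g) x| ≤ _
      have := (evB f - evB f0 - g).le_of_opNorm_le g4 x
      rw [abs_mul, abs_of_pos (by norm_num : (0 : ℝ) < 3⁻¹)]
      rw [Real.norm_eq_abs] at this
      linarith
    · rw [hZ]
      refine ⟨hf, fun x => ?_⟩
      change |evB f x - evB f0 x - 3 * ((3 : ℝ)⁻¹ * (evB f x - evB f0 x - g x))| ≤ _
      rw [mul_inv_cancel_left₀ three_ne_zero, sub_sub_cancel]
      exact g.le_of_opNorm_le g3 x
  obtain ⟨E, e2, e3, e4, e5⟩ := irr z1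
  obtain ⟨w, β, ⟨_, ⟨p, p1, rfl⟩, p2⟩, h4⟩ := h2 ε hε ((fun p => evB p.2) '' E)
    (Set.Nonempty.image _ ((e4 (z2 (subset_closure a0))).imp fun _ h => h.1)) (by
      rintro _ ⟨p, -, rfl⟩
      exact p.2.2)
  have c1 : IsClosed (E ∩ {p | evB p.2 w ≤ β}) :=
    e2.inter (isClosed_le ((evB_cont w).comp continuous_snd) continuous_const)
  have c2 : IsClosed (Prod.fst '' (E ∩ {p | evB p.2 w ≤ β})) :=
    (c1.isCompact.image continuous_fst).isClosed
  obtain ⟨_, ⟨q, q1, rfl⟩, q2⟩ := not_subset.1 fun h =>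
    not_le.2 p2 (e5 _ inter_subset_left c1 h p1).2
  rw [hZ] at q1
  obtain ⟨f, f3, f4⟩ := mem_closure_iff.1 q1.1 _ c2.isOpen_compl q2
  have key : ∀ f ∈ ({f | α < evB f y.1} ∩ (Prod.fst '' (E ∩ {p | evB p.2 w ≤ β}))ᶜ) ∩ B,
      ∃ g, (f, g) ∈ E ∧ β < evB g w := fun f hf => by
    obtain ⟨q, q1, rfl⟩ := e4 (z2 (subset_closure (show f ∈ A by rw [hA]; exact ⟨hf.1.1, hf.2⟩)))
    exact ⟨q.2, q1, not_le.1 fun e => hf.1.2 ⟨q, ⟨q1, e⟩, rfl⟩⟩
  rw [hA] at f4
  refine ⟨_, (isOpen_lt continuous_const (evB_cont y.1)).inter c2.isOpen_compl,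
    ⟨f, ⟨f4.1, f3⟩, f4.2⟩, fun f hf f' hf' => ?_⟩
  obtain ⟨g, g1, g2⟩ := key f hf
  obtain ⟨g', g3, g4⟩ := key f' hf'
  have b1 := h4 _ ⟨_, g1, rfl⟩ _ ⟨_, g3, rfl⟩ g2 g4
  refine le_trans (ContinuousLinearMap.opNorm_le_bound _ (by positivity) fun x => ?_) he
  have b2 := abs_le.1 ((hZ ▸ e3 g1).2 x)
  have b3 := abs_le.1 ((hZ ▸ e3 g3).2 x)
  have b4 := abs_le.1 (((evB g - evB g').le_of_opNorm_le b1 (Y.mkQ x)).trans
    (mul_le_mul_of_nonneg_left (Submodule.Quotient.norm_mk_le Y x) hε.le))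
  rw [sub_apply] at b4 ⊢
  exact abs_le.2 ⟨by linarith [b2.1, b3.2, b4.1], by linarith [b2.2, b3.1, b4.2]⟩

theorem gat_bump (ρ : DB X → DB X → ℝ) (r0 : ∀ f g, ρ f g ≤ 0 → f = g)
    (h : ∀ ε > 0, ∀ B : Set (DB X), Adm B → ∃ U, IsOpen U ∧ (U ∩ B).Nonempty ∧
      ∀ f ∈ U ∩ B, ∀ g ∈ U ∩ B, ρ f g ≤ ε) :
    ∃ b : X → ℝ, (∃ K : NNReal, LipschitzWith K b) ∧
      Bornology.IsBounded (support b) ∧ (∃ x : X, b x ≠ 0) ∧
      ∀ x : X, ∃ L : X →L[ℝ] ℝ, ∀ h : X, HasDerivAt (fun t : ℝ => b (x + t • h)) (L h) 0 := by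
  obtain ⟨M, m1, m2, m3⟩ := main_M (K := DB X) evB (fun z => z.2) evB_cont
    (fun k P => ∀ f ∈ P, ∀ g ∈ P, ρ f g ≤ (1 / 2) ^ k) fun k B hB => by
      obtain ⟨U, u1, ⟨z, u2⟩, u3⟩ := h ((1 / 2) ^ k) (by positivity) B hB
      obtain ⟨V, v1, v2, v3⟩ := exists_mem_nhds_isClosed_subset (u1.mem_nhds u2.1)
      have : closure (interior V ∩ B) ⊆ U ∩ B := closure_minimal
        (inter_subset_inter_left _ interior_subset) (v2.inter hB.1) |>.trans
          (inter_subset_inter_left _ v3)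
      exact ⟨interior V, isOpen_interior, ⟨z, mem_interior_iff_mem_nhds.2 v1, u2.2⟩,
        fun f hf g hg => u3 f (this hf) g (this hg)⟩
  obtain ⟨b1, b2, b3⟩ := bump_of M m1 fun x => NN_univ x ▸ m2 x
  refine ⟨_, b1, b3, b2, fun x => ?_⟩
  obtain ⟨φ, hφ⟩ := gat_of_Df (x0 := x) m1 fun H h1 h2 => m3 H h2 (fun P k p1 p2 p3 δ hδ => by
    obtain ⟨f, hf⟩ := IsCompact.nonempty_iInter_of_sequence_nonempty_isCompact_isClosed P
      (fun j => p2 (Nat.le_succ j)) (fun j => (p1 j).2) (p1 0).1.isCompact fun j => (p1 j).1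
    obtain ⟨j, hj⟩ := exists_subset_nhds_of_isCompact' (V := P) p2.directed_ge
      (fun j => (p1 j).1.isCompact) (fun j => (p1 j).1)
      (U := {g | ∀ v ∈ H, |evB g v - evB f v| < δ / 2}) (by
        intro g hg
        obtain rfl : g = f := r0 _ _ (ge_of_tendsto' (tendsto_pow_atTop_nhds_zero_of_lt_one
          (r := (1 / 2 : ℝ)) (by norm_num) (by norm_num)) fun j =>
            (p3 j g (mem_iInter.1 hg _) f (mem_iInter.1 hf _)).trans
              (half_anti (Nat.le_add_left j k)))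
        refine (eventually_all_finite h1).2 fun v _ => ?_
        have c := evB_cont v
        exact (isOpen_lt (by fun_prop) continuous_const).mem_nhds (by simpa using hδ))
    refine ⟨j, fun a ha b hb v hv => ?_⟩
    have a1 := abs_lt.1 (hj ha v hv)
    have a2 := abs_lt.1 (hj hb v hv)
    exact abs_le.2 ⟨by linarith, by linarith⟩) x
  refine ⟨-deriv Real.smoothTransition (2 - M x) • φ, fun v => ?_⟩
  have d : HasDerivAt Real.smoothTransition (deriv Real.smoothTransition (2 - M x))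
      (2 - M (x + (0 : ℝ) • v)) := by
    rw [zero_smul, add_zero]
    exact ((Real.smoothTransition.contDiff (n := 1)).differentiable one_ne_zero _).hasDerivAt
  refine (d.comp 0 ((hφ v).const_sub 2)).congr_deriv ?_
  simp

end Pool.Agent.H.MP_0d212c
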